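import Mathlib

set_option autoImplicit false

/-!
Abstract Burling structures (code by helper41): the recursion of Burling, triangle-freeness and
the decomposition (3-colourable or star cutset) of all induced subgraphs.
-/

namespace Pool.Agent.Lib.MP_4f8534_co.Finite

/-- Abstract Burling structure: `D w x` : `x` is a strict descendant of `w` in a rooted forest;
`A u x` : an arc; `S` : a family of ancestor-closed chains. -/
structure BStr (V I : Type) where
  D : V → V → Prop
  A : V → V → Prop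
  S : I → Set V
  rk : V → ℕ
  Dirr : ∀ x, ¬ D x x
  Dtr : ∀ x y z, D x y → D y z → D x z
  hrk : ∀ u x, A u x → rk u < rk x
  ha : ∀ u x w, A u x → D w x → D w u ∨ A u w
  hb : ∀ w x u, D w x → A x u → D w u
  he : ∀ u x y, A u x → A u y → x = y ∨ D x y ∨ D y x
  hchain : ∀ i x y, x ∈ S i → y ∈ S i → x = y ∨ D x y ∨ D y x
  hdown : ∀ i x w, x ∈ S i → D w x → w ∈ S i

namespace BStr

variable {V I : Type}

theorem Airr (B : BStr V I) (x : V) : ¬ B.A x x := fun h => lt_irrefl _ (B.hrk x x h)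

theorem notAD (B : BStr V I) {v w : V} (h : B.D v w) : ¬ B.A v w := by
  intro hA
  rcases B.ha v w v hA h with h1 | h1
  · exact B.Dirr _ h1
  · exact B.Airr _ h1

theorem notDA (B : BStr V I) {v w : V} (h : B.D v w) : ¬ B.A w v := by
  intro hA
  exact B.Dirr _ (B.hb v w v h hA)

/-- the underlying graph -/
def graph (B : BStr V I) : SimpleGraph V where
  Adj u x := B.A u x ∨ B.A x u
  symm := ⟨fun _ _ h => Or.symm h⟩
  loopless := ⟨fun x h => Or.elim h (B.Airr x) (B.Airr x)⟩

theorem adj_iff (B : BStr V I) (u x : V) : B.graph.Adj u x ↔ (B.A u x ∨ B.A x u) := Iff.rfl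

theorem notri (B : BStr V I) {u v w : V} (h1 : B.A u v) (h2 : B.A u w) : ¬ B.graph.Adj v w := by
  intro h
  rw [adj_iff] at h
  rcases B.he u v w h1 h2 with h3 | h3 | h3
  · subst h3
    exact h.elim (B.Airr _) (B.Airr _)
  · exact h.elim (B.notAD h3) (B.notDA h3)
  · exact h.elim (B.notDA h3) (B.notAD h3)

theorem inStable (B : BStr V I) {u v w : V} (h1 : B.A u w) (h2 : B.A v w) :
    ¬ B.graph.Adj u v := by
  intro h
  rw [adj_iff] at h
  rcases h with h | h
  · exact B.notri h h1 (Or.inl h2)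
  · exact B.notri h h2 (Or.inl h1)

theorem cliqueFree (B : BStr V I) : B.graph.CliqueFree 3 := by
  classical
  intro s hs
  rw [SimpleGraph.is3Clique_iff] at hs
  obtain ⟨a, b, c, hab, hac, hbc, -⟩ := hs
  have hab' := (B.adj_iff _ _).1 hab
  have hac' := (B.adj_iff _ _).1 hac
  have hbc' := (B.adj_iff _ _).1 hbc
  rcases hab' with h1 | h1
  · rcases hac' with h2 | h2
    · exact B.notri h1 h2 hbc
    · -- c → a → b
      rcases hbc' with h3 | h3
      · -- b → c ; a → b ; c → a: ranks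
        have e1 := B.hrk _ _ h1
        have e2 := B.hrk _ _ h2
        have e3 := B.hrk _ _ h3
        omega
      · -- c → b, c → a
        exact B.notri h3 h2 (SimpleGraph.Adj.symm hab)
  · -- b → a
    rcases hbc' with h3 | h3
    · exact B.notri h1 h3 hac
    · -- c → b → a
      rcases hac' with h2 | h2
      · have e1 := B.hrk _ _ h1
        have e2 := B.hrk _ _ h2
        have e3 := B.hrk _ _ h3
        omega
      · exact B.notri h3 h2 (SimpleGraph.Adj.symm hab)

/-- two-colouring of the arcs inside a set without `D`-comparable pairs -/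
theorem forest (B : BStr V I) [Fintype V] (T : Set V)
    (hT : ∀ x ∈ T, ∀ y ∈ T, ¬ B.D x y) :
    ∃ g : V → Bool, ∀ x ∈ T, ∀ y ∈ T, B.A x y → g x ≠ g y := by
  classical
  have key : ∀ m n : ℕ, (∀ x, B.rk x < n + m) →
      ∃ g : V → Bool, ∀ x ∈ T, ∀ y ∈ T, B.A x y → n ≤ B.rk x → g x ≠ g y := by
    intro m
    induction m with
    | zero =>
      intro n hn
      refine ⟨fun _ => true, ?_⟩
      intro x _ y _ _ h
      have := hn x
      omega
    | succ m ih =>
      intro n hn
      obtain ⟨g, hg⟩ := ih (n + 1) (fun x => by have := hn x; omega)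
      refine ⟨fun x => if h : B.rk x = n ∧ ∃ y ∈ T, B.A x y then !(g h.2.choose) else g x, ?_⟩
      intro x hx y hy hxy hnx
      have hry : ¬ (B.rk y = n ∧ ∃ z ∈ T, B.A y z) := by
        rintro ⟨h1, -⟩
        have := B.hrk _ _ hxy
        omega
      show (if h : B.rk x = n ∧ ∃ y ∈ T, B.A x y then !(g h.2.choose) else g x) ≠
        (if h : B.rk y = n ∧ ∃ z ∈ T, B.A y z then !(g h.2.choose) else g y)
      rw [dif_neg hry]
      by_cases h : B.rk x = n ∧ ∃ y ∈ T, B.A x y
      · rw [dif_pos h]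
        have h2 := h.2.choose_spec
        have h3 : h.2.choose = y := by
          rcases B.he x _ y h2.2 hxy with h4 | h4 | h4
          · exact h4
          · exact absurd h4 (hT _ h2.1 _ hy)
          · exact absurd h4 (hT _ hy _ h2.1)
        rw [h3]
        cases g y <;> simp
      · rw [dif_neg h]
        apply hg x hx y hy hxy
        have : B.rk x ≠ n := fun h1 => h ⟨h1, y, hy, hxy⟩
        omega
  obtain ⟨N, hN⟩ : ∃ N, ∀ x, B.rk x < N := by
    refine ⟨(Finset.univ.sup B.rk) + 1, fun x => ?_⟩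
    have : B.rk x ≤ Finset.univ.sup B.rk := Finset.le_sup (Finset.mem_univ x)
    omega
  obtain ⟨g, hg⟩ := key N 0 (fun x => by have := hN x; omega)
  exact ⟨g, fun x hx y hy hxy => hg x hx y hy hxy (Nat.zero_le _)⟩

theorem star (B : BStr V I) [Fintype V] (T : Set V) :
    (B.graph.induce T).Colorable 3 ∨
        ∃ S : Set V, S ⊆ T ∧ (∃ v ∈ S, ∀ w ∈ S, w ≠ v → B.graph.Adj v w) ∧
          ∃ a b : ↥(T \ S), ¬ (B.graph.induce (T \ S)).Reachable a b := by
  classical
  by_cases hW : ∃ w ∈ T, ∃ x ∈ T, B.D w x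
  · -- choose a deepest such w
    obtain ⟨w, ⟨hwT, x, hxT, hwx⟩, hmin⟩ :
        ∃ w ∈ {w | w ∈ T ∧ ∃ x ∈ T, B.D w x},
          ∀ v ∈ {w | w ∈ T ∧ ∃ x ∈ T, B.D w x}, ¬ B.D w v := by
      have : IsTrans V (fun a b => B.D b a) := ⟨fun a b c h1 h2 => B.Dtr _ _ _ h2 h1⟩
      have : Std.Irrefl (fun a b : V => B.D b a) := ⟨fun a => B.Dirr a⟩
      have wf : WellFounded (fun a b : V => B.D b a) :=
        Finite.wellFounded_of_trans_of_irrefl _
      obtain ⟨w, hw, hmin⟩ := wf.has_min {w | w ∈ T ∧ ∃ x ∈ T, B.D w x} hW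
      exact ⟨w, hw, hmin⟩
    by_cases hy : ∃ y ∈ T, ¬ (y = w ∨ B.A y w) ∧ ¬ B.D w y
    · right
      obtain ⟨y, hyT, hyS, hyD⟩ := hy
      refine ⟨{u | u ∈ T ∧ (u = w ∨ B.A u w)}, fun u hu => hu.1, ⟨w, ⟨hwT, Or.inl rfl⟩, ?_⟩, ?_⟩
      · rintro u ⟨-, hu | hu⟩ hne
        · exact absurd hu hne
        · exact Or.inr hu
      · have hxS : ¬ (x = w ∨ B.A x w) := by
          rintro (h | h)
          · subst h; exact B.Dirr _ hwx
          · exact B.notDA hwx h
        refine ⟨⟨x, hxT, fun h => hxS h.2⟩, ⟨y, hyT, fun h => hyS h.2⟩, ?_⟩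
        intro hreach
        rw [SimpleGraph.reachable_iff_reflTransGen] at hreach
        have : ∀ z : ↥(T \ {u | u ∈ T ∧ (u = w ∨ B.A u w)}),
            Relation.ReflTransGen
              (B.graph.induce (T \ {u | u ∈ T ∧ (u = w ∨ B.A u w)})).Adj
              ⟨x, hxT, fun h => hxS h.2⟩ z → B.D w z.1 := by
          intro z hz
          induction hz with
          | refl => exact hwx
          | @tail p q _ hpq ih =>
            have hadj : B.A p.1 q.1 ∨ B.A q.1 p.1 := hpq
            rcases hadj with h | h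
            · exact B.hb _ _ _ ih h
            · rcases B.ha _ _ _ h ih with h1 | h1
              · exact h1
              · exact absurd ⟨q.2.1, Or.inr h1⟩ q.2.2
        exact hyD (this _ hreach)
    · left
      push Not at hy
      obtain ⟨g, hg⟩ := B.forest {z | z ∈ T ∧ B.D w z} (by
        rintro p ⟨hp, hp'⟩ q ⟨hq, hq'⟩ hpq
        exact hmin p ⟨hp, q, hq, hpq⟩ hp')
      let col : V → Fin 3 := fun z => if B.D w z then (if g z then 0 else 1) else
        if z = w then 0 else 2
      refine ⟨SimpleGraph.Coloring.mk (fun z => col z.1) ?_⟩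
      rintro ⟨p, hp⟩ ⟨q, hq⟩ hadj
      have hadj : B.A p q ∨ B.A q p := hadj
      have main : ∀ p ∈ T, ∀ q ∈ T, B.A p q → col p ≠ col q := by
        intro p hp q hq hpq
        by_cases h1 : B.D w p
        · have h2 : B.D w q := B.hb _ _ _ h1 hpq
          have h3 := hg p ⟨hp, h1⟩ q ⟨hq, h2⟩ hpq
          simp only [col, if_pos h1, if_pos h2]
          revert h3
          cases g p <;> cases g q <;> simp
        · by_cases h2 : B.D w q
          · -- p not below w, q below w, so A p w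
            have h3 : p ≠ w := by
              rintro rfl
              exact B.notAD h2 hpq
            simp only [col, if_neg h1, if_pos h2, if_neg h3]
            cases g q <;> simp
          · simp only [col, if_neg h1, if_neg h2]
            by_cases h3 : p = w
            · rw [if_pos h3]
              have h4 : q ≠ w := by
                rintro rfl
                subst h3
                exact B.Airr _ hpq
              rw [if_neg h4]
              decide
            · rw [if_neg h3]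
              by_cases h4 : q = w
              · rw [if_pos h4]; decide
              · exfalso
                have e1 : B.A p w := by
                  by_contra h5
                  exact h1 (hy p hp ⟨h3, h5⟩)
                have e2 : B.A q w := by
                  by_contra h5
                  exact h2 (hy q hq ⟨h4, h5⟩)
                exact B.inStable e1 e2 (Or.inl hpq)
      rcases hadj with h | h
      · exact main p hp q hq h
      · exact (main q hq p hp h).symm
  · left
    push Not at hW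
    obtain ⟨g, hg⟩ := B.forest T hW
    refine ⟨SimpleGraph.Coloring.mk (fun z => if g z.1 then 0 else 1) ?_⟩
    rintro ⟨p, hp⟩ ⟨q, hq⟩ hadj
    have hadj : B.A p q ∨ B.A q p := hadj
    have h3 : g p ≠ g q := by
      rcases hadj with h | h
      · exact hg p hp q hq h
      · exact (hg q hq p hp h).symm
    revert h3
    cases g p <;> cases g q <;> simp

/-- the base structure on no vertices -/
def base : BStr Empty Unit where
  D := fun _ _ => False
  A := fun _ _ => False
  S := fun _ => ∅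
  rk := fun _ => 0
  Dirr := fun x => x.elim
  Dtr := fun x => x.elim
  hrk := fun x => x.elim
  ha := fun x => x.elim
  hb := fun x => x.elim
  he := fun x => x.elim
  hchain := fun _ x => x.elim
  hdown := fun _ x => x.elim

/-- Burling's recursive step -/
def next (B : BStr V I) : BStr (V ⊕ ((I × V) ⊕ (I × I))) (I × I × Bool) where
  D := fun p q => match p, q with
    | Sum.inl x, Sum.inl y => B.D x y
    | Sum.inl x, Sum.inr (Sum.inl (i, _)) => x ∈ B.S i
    | Sum.inl x, Sum.inr (Sum.inr (i, _)) => x ∈ B.S i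
    | Sum.inr (Sum.inl (i, x)), Sum.inr (Sum.inl (i', y)) => i = i' ∧ B.D x y
    | _, _ => False
  A := fun p q => match p, q with
    | Sum.inl x, Sum.inl y => B.A x y
    | Sum.inr (Sum.inl (i, x)), Sum.inr (Sum.inl (i', y)) => i = i' ∧ B.A x y
    | Sum.inr (Sum.inr (i, j)), Sum.inr (Sum.inl (i', y)) => i = i' ∧ y ∈ B.S j
    | _, _ => False
  S := fun t => {p | match p with
    | Sum.inl x => x ∈ B.S t.1
    | Sum.inr (Sum.inl (i, x)) => t.2.2 = false ∧ i = t.1 ∧ x ∈ B.S t.2.1
    | Sum.inr (Sum.inr (i, j)) => t.2.2 = true ∧ i = t.1 ∧ j = t.2.1}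
  rk := fun p => match p with
    | Sum.inl x => B.rk x + 1
    | Sum.inr (Sum.inl (_, x)) => B.rk x + 1
    | Sum.inr (Sum.inr _) => 0
  Dirr := by
    rintro (x | ⟨i, x⟩ | ⟨i, j⟩) h
    · exact B.Dirr _ h
    · exact B.Dirr _ h.2
    · exact h
  Dtr := by
    rintro (x | ⟨i, x⟩ | ⟨i, j⟩) (y | ⟨i', y⟩ | ⟨i', j'⟩) (z | ⟨i'', z⟩ | ⟨i'', j''⟩) h1 h2
    all_goals first
      | exact h1.elim
      | exact h2.elim
      | exact B.Dtr _ _ _ h1 h2
      | exact B.hdown _ _ _ h2 h1
      | (obtain ⟨rfl, h2⟩ := h2; exact h1)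
      | (obtain ⟨rfl, h2⟩ := h2; obtain ⟨rfl, h1⟩ := h1; exact ⟨rfl, B.Dtr _ _ _ h1 h2⟩)
  hrk := by
    rintro (x | ⟨i, x⟩ | ⟨i, j⟩) (y | ⟨i', y⟩ | ⟨i', j'⟩) h1
    all_goals first
      | exact h1.elim
      | exact Nat.succ_lt_succ (B.hrk _ _ h1)
      | exact Nat.succ_lt_succ (B.hrk _ _ h1.2)
      | exact Nat.succ_pos _
  ha := by
    rintro (u | ⟨i, u⟩ | ⟨i, j⟩) (x | ⟨i', x⟩ | ⟨i', j'⟩) (w | ⟨i'', w⟩ | ⟨i'', j''⟩) h1 h2
    all_goals first
      | exact h1.elim
      | exact h2.elim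
      | exact B.ha _ _ _ h1 h2
      | (obtain ⟨rfl, h1⟩ := h1; exact Or.inl h2)
      | (obtain ⟨rfl, h2⟩ := h2; obtain ⟨rfl, h1⟩ := h1
         rcases B.ha _ _ _ h1 h2 with h3 | h3
         · exact Or.inl ⟨rfl, h3⟩
         · exact Or.inr ⟨rfl, h3⟩)
      | (obtain ⟨rfl, h2⟩ := h2; obtain ⟨rfl, h1⟩ := h1
         exact Or.inr ⟨rfl, B.hdown _ _ _ h1 h2⟩)
  hb := by
    rintro (w | ⟨i, w⟩ | ⟨i, j⟩) (x | ⟨i', x⟩ | ⟨i', j'⟩) (u | ⟨i'', u⟩ | ⟨i'', j''⟩) h1 h2
    all_goals first
      | exact h1.elim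
      | exact h2.elim
      | exact B.hb _ _ _ h1 h2
      | (obtain ⟨rfl, h2⟩ := h2; exact h1)
      | (obtain ⟨rfl, h2⟩ := h2; obtain ⟨rfl, h1⟩ := h1; exact ⟨rfl, B.hb _ _ _ h1 h2⟩)
  he := by
    rintro (u | ⟨i, u⟩ | ⟨i, j⟩) (x | ⟨i', x⟩ | ⟨i', j'⟩) (y | ⟨i'', y⟩ | ⟨i'', j''⟩) h1 h2
    all_goals first
      | exact h1.elim
      | exact h2.elim
      | (rcases B.he _ _ _ h1 h2 with h3 | h3 | h3
         · subst h3; exact Or.inl rfl
         · exact Or.inr (Or.inl h3)
         · exact Or.inr (Or.inr h3))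
      | (obtain ⟨rfl, h2⟩ := h2; obtain ⟨rfl, h1⟩ := h1
         rcases B.he _ _ _ h1 h2 with h3 | h3 | h3
         · subst h3; exact Or.inl rfl
         · exact Or.inr (Or.inl ⟨rfl, h3⟩)
         · exact Or.inr (Or.inr ⟨rfl, h3⟩))
      | (obtain ⟨rfl, h2⟩ := h2; obtain ⟨rfl, h1⟩ := h1
         rcases B.hchain _ _ _ h1 h2 with h3 | h3 | h3
         · subst h3; exact Or.inl rfl
         · exact Or.inr (Or.inl ⟨rfl, h3⟩)
         · exact Or.inr (Or.inr ⟨rfl, h3⟩))
  hchain := by
    rintro ⟨k, l, b⟩ (x | ⟨i', x⟩ | ⟨i', j'⟩) (y | ⟨i'', y⟩ | ⟨i'', j''⟩) h1 h2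
    · rcases B.hchain _ _ _ h1 h2 with h3 | h3 | h3
      · subst h3; exact Or.inl rfl
      · exact Or.inr (Or.inl h3)
      · exact Or.inr (Or.inr h3)
    · obtain ⟨h3, h4, h5⟩ := h2
      simp only at h4
      subst h4
      exact Or.inr (Or.inl h1)
    · obtain ⟨h3, h4, h5⟩ := h2
      simp only at h4
      subst h4
      exact Or.inr (Or.inl h1)
    · obtain ⟨h3, h4, h5⟩ := h1
      simp only at h4
      subst h4
      exact Or.inr (Or.inr h2)
    · obtain ⟨h3, h4, h5⟩ := h1
      obtain ⟨h6, h7, h8⟩ := h2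
      simp only at h4 h7 h5 h8
      subst h4
      subst h7
      rcases B.hchain _ _ _ h5 h8 with h9 | h9 | h9
      · subst h9; exact Or.inl rfl
      · exact Or.inr (Or.inl ⟨rfl, h9⟩)
      · exact Or.inr (Or.inr ⟨rfl, h9⟩)
    · obtain ⟨h3, h4, h5⟩ := h1
      obtain ⟨h6, h7, h8⟩ := h2
      simp only at h3 h6
      rw [h3] at h6
      cases h6
    · obtain ⟨h3, h4, h5⟩ := h1
      simp only at h4
      subst h4
      exact Or.inr (Or.inr h2)
    · obtain ⟨h3, h4, h5⟩ := h1
      obtain ⟨h6, h7, h8⟩ := h2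
      simp only at h3 h6
      rw [h3] at h6
      cases h6
    · obtain ⟨h3, h4, h5⟩ := h1
      obtain ⟨h6, h7, h8⟩ := h2
      simp only at h4 h7 h5 h8
      subst h4 h7 h5 h8
      exact Or.inl rfl
  hdown := by
    rintro ⟨k, l, b⟩ (x | ⟨i', x⟩ | ⟨i', j'⟩) (w | ⟨i'', w⟩ | ⟨i'', j''⟩) h1 h2
    · exact B.hdown _ _ _ h1 h2
    · exact h2.elim
    · exact h2.elim
    · obtain ⟨h3, h4, h5⟩ := h1
      simp only at h4
      subst h4
      exact h2
    · obtain ⟨h3, h4, h5⟩ := h1
      obtain ⟨h6, h7⟩ := h2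
      simp only at h4 h5
      subst h4 h6
      exact ⟨h3, rfl, B.hdown _ _ _ h5 h7⟩
    · exact h2.elim
    · obtain ⟨h3, h4, h5⟩ := h1
      simp only at h4
      subst h4
      exact h2
    · exact h2.elim
    · exact h2.elim

end BStr

end Pool.Agent.Lib.MP_4f8534_co.Finite
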