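import Pool.Agent.Lib.MP_4f8534_co.Struct

/-!
# The number of vertices, and finite induced subgraphs of large chromatic number
-/

set_option autoImplicit false

namespace Pool.Agent.Lib.MP_4f8534_co

universe u

open Node Cardinal

/-- The four kinds of nodes. -/
inductive Shape : Type u
  | a | b | c | d

/-- The arities of the four kinds of nodes. -/
def arity (I : Type u) : Shape.{u} → Type u
  | .a => PEmpty
  | .b => PUnit
  | .c => Option I
  | .d => I

/-- Nodes as elements of a W-type. -/
def toW {I : Type u} : Node I → WType (arity I)
  | .root => ⟨.a, PEmpty.elim⟩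
  | .last x => ⟨.b, fun _ => toW x⟩
  | .side x P => ⟨.c, fun o => match o with
      | none => toW x
      | some i => toW (P i)⟩
  | .lim s => ⟨.d, fun i => toW (s i)⟩

theorem toW_injective (I : Type u) : Function.Injective (toW (I := I)) := by
  intro x
  induction x with
  | root =>
    intro y h
    cases y with
    | root => rfl
    | last _ => simp only [toW] at h; exact nomatch (WType.mk.inj h).1
    | side _ _ => simp only [toW] at h; exact nomatch (WType.mk.inj h).1
    | lim _ => simp only [toW] at h; exact nomatch (WType.mk.inj h).1
  | last x ih =>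
    intro y h
    cases y with
    | root => simp only [toW] at h; exact nomatch (WType.mk.inj h).1
    | last z =>
      simp only [toW, WType.mk.injEq, heq_eq_eq, true_and] at h
      rw [ih (congrFun h PUnit.unit)]
    | side _ _ => simp only [toW] at h; exact nomatch (WType.mk.inj h).1
    | lim _ => simp only [toW] at h; exact nomatch (WType.mk.inj h).1
  | side x P ih1 ih2 =>
    intro y h
    cases y with
    | root => simp only [toW] at h; exact nomatch (WType.mk.inj h).1
    | last z => simp only [toW] at h; exact nomatch (WType.mk.inj h).1
    | side z Q =>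
      simp only [toW, WType.mk.injEq, heq_eq_eq, true_and] at h
      have h1 := congrFun h none
      have h2 : P = Q := funext fun i => ih2 i (congrFun h (some i))
      rw [ih1 h1, h2]
    | lim _ => simp only [toW] at h; exact nomatch (WType.mk.inj h).1
  | lim s ih =>
    intro y h
    cases y with
    | root => simp only [toW] at h; exact nomatch (WType.mk.inj h).1
    | last z => simp only [toW] at h; exact nomatch (WType.mk.inj h).1
    | side z Q => simp only [toW] at h; exact nomatch (WType.mk.inj h).1
    | lim t =>
      simp only [toW, WType.mk.injEq, heq_eq_eq, true_and] at h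
      have h2 : s = t := funext fun i => ih i (congrFun h i)
      rw [h2]

theorem mk_shape : #(Shape.{u}) ≤ ℵ₀ := by
  have : Finite Shape.{u} := by
    refine Finite.of_injective (β := Fin 4) (fun s => match s with
      | .a => 0 | .b => 1 | .c => 2 | .d => 3) ?_
    intro s t h
    cases s <;> cases t <;> simp_all
  exact Cardinal.mk_le_aleph0

theorem mk_vert_le (I : Type u) [Infinite I] : #(Vert I) ≤ 2 ^ #I := by
  refine (Cardinal.mk_subtype_le _).trans ((Cardinal.mk_le_of_injective (toW_injective I)).trans ?_)
  refine WType.cardinalMk_le_of_le ?_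
  have hI : ℵ₀ ≤ #I := Cardinal.aleph0_le_mk I
  have hI2 : #I ≤ 2 ^ #I := (Cardinal.cantor _).le
  refine (Cardinal.sum_le_mk_mul_iSup _).trans ?_
  have harity : ∀ t, #(arity I t) ≤ #I := by
    intro t
    cases t with
    | a => simp [arity]
    | b => simpa [arity] using (Cardinal.one_lt_aleph0.le.trans hI)
    | c =>
      simp only [arity, Cardinal.mk_option]
      exact (Cardinal.add_one_eq hI).le
    | d => exact le_rfl
  have hsup : (⨆ t, (2 ^ #I) ^ #(arity I t)) ≤ (2 : Cardinal.{u}) ^ #I := by
    refine ciSup_le' fun t => ?_
    rw [← Cardinal.power_mul]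
    refine Cardinal.power_le_power_left two_ne_zero ?_
    refine (mul_le_mul_right (harity t) _).trans ?_
    exact (Cardinal.mul_eq_self hI).le
  refine (mul_le_mul' (mk_shape.trans (hI.trans hI2)) hsup).trans ?_
  exact (Cardinal.mul_eq_self (hI.trans hI2)).le

/-- Finite induced subgraphs of every finite chromatic number. -/
theorem exists_finite {V : Type u} (G : SimpleGraph V) (C : Type u) [Infinite C]
    (h : IsEmpty (G.Coloring C)) (c : ℕ) : ∃ T : Set V, T.Finite ∧ ¬ (G.induce T).Colorable c := by
  by_contra hcon
  push Not at hcon
  have hhom : Nonempty (G →g (⊤ : SimpleGraph (Fin c))) := by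
    refine SimpleGraph.nonempty_hom_of_forall_finite_subgraph_hom fun G' hG' => ?_
    have f : (G.induce G'.verts).Coloring (Fin c) := (hcon G'.verts hG').some
    exact ⟨fun v => f v, fun {a b} hab => f.map_rel (G'.adj_sub hab)⟩
  obtain ⟨f⟩ := hhom
  let e : Fin c ↪ C := Fin.valEmbedding.trans (Infinite.natEmbedding C)
  exact h.false (SimpleGraph.Coloring.mk (fun v => e (f v)) (by
    intro a b hab he
    exact (f.map_rel hab) (e.injective he)))

end Pool.Agent.Lib.MP_4f8534_co
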