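import Mathlib
import Pool.Agent.Lib.MP_4f8534_co.Burling

set_option autoImplicit false

/-!
Dual certificates: weights `y` on the vertices and `z` on the members of the family such that
every independent set `J` has `y`-weight at most the `z`-weight of the members it hits.  One step
of the recursion raises (total weight of `y`) / (total weight of `z`) by `1/2`.
-/

namespace Pool.Agent.Lib.MP_4f8534_co.Finite

open Classical in
/-- a certificate of ratio `k / 2` and total weight `2 ^ (2 ^ k - 1)` -/
def BStr.Cert {V I : Type} [Fintype V] [Fintype I] (B : BStr V I) (k : ℕ) : Prop :=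
  ∃ (y : V → ℕ) (z : I → ℕ) (N : ℕ), N = 2 ^ (2 ^ k - 1) ∧ ∑ i, z i = N ∧
    2 * ∑ v, y v = k * N ∧
    ∀ J : Set V, (∀ u ∈ J, ∀ x ∈ J, ¬ B.A u x) →
      ∑ v, (if v ∈ J then 1 else 0) * y v ≤
        ∑ i, (if ∃ v ∈ J, v ∈ B.S i then 1 else 0) * z i

theorem BStr.next_cert {V I : Type} [Fintype V] [Fintype I] (B : BStr V I) (k : ℕ)
    (h : B.Cert k) : B.next.Cert (k + 1) := by
  classical
  obtain ⟨y, z, N, hN, hz, hy, hJ⟩ := h
  refine ⟨Sum.elim (fun x => N * y x)
      (Sum.elim (fun p => z p.1 * y p.2) (fun p => z p.1 * z p.2)),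
    fun t => z t.1 * z t.2.1, 2 * N * N, ?_, ?_, ?_, ?_⟩
  · rw [hN, mul_assoc, ← pow_add, ← pow_succ']
    congr 1
    have : 0 < 2 ^ k := by positivity
    rw [pow_succ]
    omega
  · rw [Fintype.sum_prod_type]
    simp only [Fintype.sum_prod_type, Fintype.sum_bool]
    simp only [← two_mul, ← Finset.mul_sum]
    rw [← Finset.sum_mul, hz]
    ring
  · rw [Fintype.sum_sum_type, Fintype.sum_sum_type, Fintype.sum_prod_type, Fintype.sum_prod_type]
    simp only [Sum.elim_inl, Sum.elim_inr]
    simp only [← Finset.mul_sum, ← Finset.sum_mul, hz]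
    have : 2 * (N * ∑ i, y i + (N * ∑ i, y i + N * N)) = 2 * N * (2 * ∑ i, y i) + 2 * N * N := by
      ring
    rw [this, hy]
    ring
  · intro J hind
    set a : I → ℕ := fun i => if ∃ x ∈ {x : V | Sum.inl x ∈ J}, x ∈ B.S i then 1 else 0 with ha
    set b : I → I → ℕ := fun i j =>
      if ∃ x ∈ {x : V | Sum.inr (Sum.inl (i, x)) ∈ J}, x ∈ B.S j then 1 else 0 with hb
    set c : I → I → ℕ := fun i j => if Sum.inr (Sum.inr (i, j)) ∈ J then 1 else 0 with hc
    have h0 : ∑ x : V, (if Sum.inl x ∈ J then 1 else 0) * y x ≤ ∑ i, a i * z i :=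
      hJ {x : V | Sum.inl x ∈ J} (fun u hu x hx h => hind _ hu _ hx h)
    have h1 : ∀ i, ∑ x : V, (if Sum.inr (Sum.inl (i, x)) ∈ J then 1 else 0) * y x ≤
        ∑ j, b i j * z j := fun i =>
      hJ {x : V | Sum.inr (Sum.inl (i, x)) ∈ J} (fun u hu x hx h => hind _ hu _ hx ⟨rfl, h⟩)
    have h2 : ∀ i j, b i j + c i j ≤ 1 := by
      intro i j
      by_cases e1 : ∃ x ∈ {x : V | Sum.inr (Sum.inl (i, x)) ∈ J}, x ∈ B.S j
      · by_cases e2 : Sum.inr (Sum.inr (i, j)) ∈ J
        · exfalso
          obtain ⟨x, hx, hxS⟩ := e1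
          exact hind _ e2 _ hx ⟨rfl, hxS⟩
        · simp only [hb, hc, if_pos e1, if_neg e2]
          omega
      · simp only [hb, hc, if_neg e1]
        split_ifs <;> omega
    have lhs : ∑ v, (if v ∈ J then 1 else 0) * (Sum.elim (fun x => N * y x)
        (Sum.elim (fun p => z p.1 * y p.2) (fun p => z p.1 * z p.2)) :
          V ⊕ ((I × V) ⊕ (I × I)) → ℕ) v =
        N * ∑ x : V, (if Sum.inl x ∈ J then 1 else 0) * y x +
        (∑ i, z i * ∑ x : V, (if Sum.inr (Sum.inl (i, x)) ∈ J then 1 else 0) * y x +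
         ∑ i, z i * ∑ j, c i j * z j) := by
      rw [Fintype.sum_sum_type, Fintype.sum_sum_type, Fintype.sum_prod_type,
        Fintype.sum_prod_type]
      simp only [Sum.elim_inl, Sum.elim_inr, Finset.mul_sum]
      congr 1
      · exact Finset.sum_congr rfl fun x _ => by ring
      · congr 1
        · exact Finset.sum_congr rfl fun i _ => Finset.sum_congr rfl fun x _ => by ring
        · exact Finset.sum_congr rfl fun i _ => Finset.sum_congr rfl fun x _ => by
            simp only [hc]
            ring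
    have rhs : ∑ t : I × I × Bool, (if ∃ v ∈ J, v ∈ B.next.S t then 1 else 0) *
        (z t.1 * z t.2.1) = ∑ i, z i * ∑ j, ((if ∃ v ∈ J, v ∈ B.next.S (i, j, true) then 1 else 0) +
          (if ∃ v ∈ J, v ∈ B.next.S (i, j, false) then 1 else 0)) * z j := by
      rw [Fintype.sum_prod_type]
      simp only [Fintype.sum_prod_type, Fintype.sum_bool, Finset.mul_sum]
      exact Finset.sum_congr rfl fun i _ => Finset.sum_congr rfl fun x _ => by ring
    have key : ∀ i j, a i + b i j + c i j ≤
        (if ∃ v ∈ J, v ∈ B.next.S (i, j, true) then 1 else 0) +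
          (if ∃ v ∈ J, v ∈ B.next.S (i, j, false) then 1 else 0) := by
      intro i j
      have h2' := h2 i j
      by_cases e0 : ∃ x ∈ {x : V | Sum.inl x ∈ J}, x ∈ B.S i
      · obtain ⟨x, hx, hxS⟩ := e0
        have e1 : ∃ v ∈ J, v ∈ B.next.S (i, j, true) := ⟨Sum.inl x, hx, hxS⟩
        have e2 : ∃ v ∈ J, v ∈ B.next.S (i, j, false) := ⟨Sum.inl x, hx, hxS⟩
        have e3 : a i ≤ 1 := by
          simp only [ha]
          split_ifs <;> omega
        rw [if_pos e1, if_pos e2]
        omega
      · have e3 : a i = 0 := by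
          simp only [ha, if_neg e0]
        have e4 : b i j ≤ (if ∃ v ∈ J, v ∈ B.next.S (i, j, false) then 1 else 0) := by
          by_cases e1 : ∃ x ∈ {x : V | Sum.inr (Sum.inl (i, x)) ∈ J}, x ∈ B.S j
          · obtain ⟨x, hx, hxS⟩ := e1
            have e5 : ∃ v ∈ J, v ∈ B.next.S (i, j, false) :=
              ⟨Sum.inr (Sum.inl (i, x)), hx, rfl, rfl, hxS⟩
            rw [if_pos e5]
            simp only [hb]
            split_ifs <;> omega
          · simp only [hb, if_neg e1]
            omega
        have e6 : c i j ≤ (if ∃ v ∈ J, v ∈ B.next.S (i, j, true) then 1 else 0) := by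
          by_cases e1 : Sum.inr (Sum.inr (i, j)) ∈ J
          · have e5 : ∃ v ∈ J, v ∈ B.next.S (i, j, true) :=
              ⟨Sum.inr (Sum.inr (i, j)), e1, rfl, rfl, rfl⟩
            rw [if_pos e5]
            simp only [hc]
            split_ifs <;> omega
          · simp only [hc, if_neg e1]
            omega
        omega
    rw [lhs, rhs]
    calc N * ∑ x : V, (if Sum.inl x ∈ J then 1 else 0) * y x +
        (∑ i, z i * ∑ x : V, (if Sum.inr (Sum.inl (i, x)) ∈ J then 1 else 0) * y x +
         ∑ i, z i * ∑ j, c i j * z j)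
        ≤ N * ∑ i, a i * z i + (∑ i, z i * ∑ j, b i j * z j + ∑ i, z i * ∑ j, c i j * z j) := by
          gcongr with i _
          exact h1 i
      _ = ∑ i, z i * ∑ j, (a i + b i j + c i j) * z j := by
          have e : ∀ i, ∑ j, (a i + b i j + c i j) * z j =
              a i * N + (∑ j, b i j * z j + ∑ j, c i j * z j) := by
            intro i
            simp only [add_mul, Finset.sum_add_distrib, ← Finset.mul_sum, hz]
            ring
          simp only [e, mul_add, Finset.sum_add_distrib]
          congr 1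
          rw [Finset.mul_sum]
          exact Finset.sum_congr rfl fun i _ => by ring
      _ ≤ _ := Finset.sum_le_sum fun i _ => Nat.mul_le_mul_left _
          (Finset.sum_le_sum fun j _ => Nat.mul_le_mul_right _ (key i j))

theorem BStr.exists_cert (k : ℕ) : ∃ (V I : Type) (_ : Fintype V) (_ : Fintype I)
    (B : BStr V I), B.Cert k := by
  induction k with
  | zero =>
    refine ⟨Empty, Unit, inferInstance, inferInstance, base, fun _ => 0, fun _ => 1, 1, by simp,
      by simp, by simp, ?_⟩
    intro J hJ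
    simp
  | succ k ih =>
    obtain ⟨V, I, _, _, B, hB⟩ := ih
    exact ⟨_, _, inferInstance, inferInstance, B.next, B.next_cert k hB⟩

end Pool.Agent.Lib.MP_4f8534_co.Finite
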