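import Pool.Agent.Lib.MP_4f8534_co.Tree

/-!
# The graph on the valid nodes, and the colouring argument
-/

set_option autoImplicit false

namespace Pool.Agent.Lib.MP_4f8534_co

universe u

open Node

/-- The vertices: the valid nodes. -/
abbrev Vert (I : Type u) : Type u := {z : Node I // Valid z}

/-- The graph: two valid nodes are joined if one of them points to the other. -/
def graph (I : Type u) : SimpleGraph (Vert I) where
  Adj a b := Arc a.1 b.1 ∨ Arc b.1 a.1
  symm := ⟨fun _ _ h => h.symm⟩
  loopless := ⟨fun _ h => by
    rcases h with h | h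
    · exact h.sub.irrefl
    · exact h.sub.irrefl⟩

theorem graph_adj {I : Type u} {a b : Vert I} :
    (graph I).Adj a b ↔ Arc a.1 b.1 ∨ Arc b.1 a.1 := Iff.rfl

/-- A chain indexed by `C`, above a given node, along which prescribed properties hold. -/
theorem exists_chain {C : Type u} (b : Node C) (hb : Valid b) (R : C → Node C → Prop)
    (hR : ∀ z, Valid z → le b z → ∀ c, ∃ y, Valid y ∧ le z y ∧ R c y) :
    ∃ h : C → Node C, (∀ c, Valid (h c)) ∧ (∀ c, le b (h c)) ∧ (∀ c, R c (h c)) ∧
      ∀ c d, le (h c) (h d) ∨ le (h d) (h c) := by
  classical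
  let r : C → C → Prop := WellOrderingRel
  have hwf : WellFounded r := WellOrderingRel.isWellOrder.wf
  let pick : Node C → C → Node C := fun z c =>
    if H : ∃ y, Valid y ∧ le z y ∧ R c y then H.choose else z
  have hpick : ∀ z c, Valid z → le b z →
      Valid (pick z c) ∧ le z (pick z c) ∧ R c (pick z c) := by
    intro z c hz hbz
    have H := hR z hz hbz c
    simp only [pick, dif_pos H]
    exact H.choose_spec
  let h : C → Node C := hwf.fix
    (fun c ih => pick (Node.lim (fun d => if H : r d c then ih d H else b)) c)
  have hfix : ∀ c, h c = pick (Node.lim (fun d => if r d c then h d else b)) c := by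
    intro c
    have := hwf.fix_eq
      (fun c ih => pick (Node.lim (fun d => if H : r d c then ih d H else b)) c) c
    simpa [h, dite_eq_ite] using this
  have key : ∀ c, Valid (h c) ∧ le b (h c) ∧ R c (h c) ∧ ∀ d, r d c → le (h d) (h c) := by
    intro c
    induction c using hwf.induction with
    | _ c ih =>
      set s : C → Node C := fun d => if r d c then h d else b with hs
      have hsv : Valid (Node.lim s) := by
        refine ⟨fun d => ?_, fun d e => ?_⟩
        · by_cases hd : r d c
          · simp only [hs, if_pos hd]; exact (ih d hd).1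
          · simp only [hs, if_neg hd]; exact hb
        · by_cases hd : r d c
          · by_cases he : r e c
            · simp only [hs, if_pos hd, if_pos he]
              rcases trichotomous_of r d e with h1 | h1 | h1
              · exact Or.inl ((ih e he).2.2.2 d h1)
              · subst h1; exact Or.inl (Node.le_refl _)
              · exact Or.inr ((ih d hd).2.2.2 e h1)
            · simp only [hs, if_pos hd, if_neg he]
              exact Or.inr (ih d hd).2.1
          · by_cases he : r e c
            · simp only [hs, if_neg hd, if_pos he]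
              exact Or.inl (ih e he).2.1
            · simp only [hs, if_neg hd, if_neg he]
              exact Or.inl (Node.le_refl _)
      have hbs : le b (Node.lim s) := by
        refine Or.inr ⟨c, ?_⟩
        have : ¬ r c c := irrefl_of r c
        simp only [hs, if_neg this]
        exact Node.le_refl _
      obtain ⟨h1, h2, h3⟩ := hpick (Node.lim s) c hsv hbs
      rw [hfix c]
      refine ⟨h1, Node.le_trans hbs h2, h3, fun d hd => ?_⟩
      refine Node.le_trans ?_ h2
      refine Or.inr ⟨d, ?_⟩
      simp only [hs, if_pos hd]
      exact Node.le_refl _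
  refine ⟨h, fun c => (key c).1, fun c => (key c).2.1, fun c => (key c).2.2.1, fun c d => ?_⟩
  rcases trichotomous_of r c d with h1 | h1 | h1
  · exact Or.inl ((key d).2.2.2 c h1)
  · subst h1; exact Or.inl (Node.le_refl _)
  · exact Or.inr ((key c).2.2.2 d h1)

/-- The graph over `C` has no proper colouring with colours in `C`. -/
theorem no_coloring (C : Type u) : IsEmpty ((graph C).Coloring C) := by
  classical
  refine ⟨fun f => ?_⟩
  -- `cone x c`: the colour `c` occurs at or above `x`
  let cone : Node C → C → Prop := fun x c => ∃ y : Vert C, le x y.1 ∧ f y = c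
  have hmono : ∀ x y c, le x y → cone y c → cone x c := by
    rintro x y c hxy ⟨z, hz, hc⟩
    exact ⟨z, Node.le_trans hxy hz, hc⟩
  -- a node above which all cones see the same colours
  obtain ⟨h, hv, -, hR, hch⟩ := exists_chain (C := C) Node.root trivial
    (fun c y => ¬ cone y c ∨ ∀ y', Valid y' → le y y' → cone y' c) (by
      intro z hz _ c
      by_cases H : ∀ y', Valid y' → le z y' → cone y' c
      · exact ⟨z, hz, Node.le_refl _, Or.inr H⟩
      · push Not at H
        obtain ⟨y', h1, h2, h3⟩ := H
        exact ⟨y', h1, h2, Or.inl h3⟩)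
  let x : Node C := Node.lim h
  have hx : Valid x := ⟨hv, hch⟩
  have hxs : ∀ c, le (h c) x := fun c => Or.inr ⟨c, Node.le_refl _⟩
  have hstab : ∀ c y, Valid y → le x y → cone x c → cone y c := by
    intro c y hy hxy hc
    rcases hR c with h1 | h1
    · exact (h1 (hmono _ _ _ (hxs c) hc)).elim
    · exact h1 y hy (Node.le_trans (hxs c) hxy)
  have hxl : le x (Node.last x) := Or.inr (Node.le_refl _)
  -- a chain above `last x` running through all these colours
  obtain ⟨P, hPv, hPl, hPR, hPch⟩ := exists_chain (C := C) (Node.last x) hx
    (fun c y => cone x c → ∃ hy : Valid y, f ⟨y, hy⟩ = c) (by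
      intro z hz hzl c
      by_cases H : cone x c
      · obtain ⟨y, h1, h2⟩ := hstab c z hz (Node.le_trans hxl hzl) H
        exact ⟨y.1, y.2, h1, fun _ => ⟨y.2, h2⟩⟩
      · exact ⟨z, hz, Node.le_refl _, fun h => (H h).elim⟩)
  let v : Vert C := ⟨Node.side x P, hx, hPv, hPl, hPch⟩
  have hv' : cone x (f v) := ⟨v, Or.inr (Node.le_refl _), rfl⟩
  obtain ⟨hy, hfy⟩ := hPR (f v) hv'
  have hadj : (graph C).Adj v ⟨P (f v), hy⟩ :=
    Or.inl ⟨x, P, rfl, hPl _, f v, Node.le_refl _⟩
  exact f.valid hadj hfy.symm

end Pool.Agent.Lib.MP_4f8534_co
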