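import Mathlib

set_option autoImplicit false

/-!
Graphs without triangles and 4-cycles, every induced subgraph of which is `k`-colourable or has a
star cutset: a minimal part cut off by at most two stars with adjacent centres is `k`-colourable.
-/

namespace Pool.Agent.Lib.MP_4f8534_co.Finite

variable {V : Type}

/-- a star of `G` -/
def Star (G : SimpleGraph V) (S : Set V) : Prop := ∃ v ∈ S, ∀ w ∈ S, w ≠ v → G.Adj v w

/-- a union of two stars of `G` with adjacent centres -/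
def DStar (G : SimpleGraph V) (v₀ v₁ : V) (X : Set V) : Prop :=
  v₀ ∈ X ∧ v₁ ∈ X ∧ G.Adj v₀ v₁ ∧ ∀ w ∈ X, w ≠ v₀ → w ≠ v₁ → G.Adj v₀ w ∨ G.Adj v₁ w

/-- the sets used as cuts -/
def Fam (G : SimpleGraph V) (X : Set V) : Prop :=
  X = ∅ ∨ Star G X ∨ ∃ v₀ v₁, DStar G v₀ v₁ X

/-- inside `U`, the nonempty set `D` is cut off by `X` -/
def Cut (G : SimpleGraph V) (U X D : Set V) : Prop :=
  D.Nonempty ∧ D ⊆ U ∧ X ⊆ U ∧ Disjoint D X ∧
    ∀ d ∈ D, ∀ u ∈ U, G.Adj d u → u ∈ D ∨ u ∈ X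

/-- no triangle -/
def Tri (G : SimpleGraph V) : Prop := ∀ a b c, G.Adj a b → G.Adj a c → ¬ G.Adj b c

/-- no 4-cycle -/
def Quad (G : SimpleGraph V) : Prop :=
  ∀ a b c d, G.Adj a c → G.Adj a d → G.Adj b c → G.Adj b d → a = b ∨ c = d

/-- a separation -/
structure Sep (G : SimpleGraph V) (H S P Q : Set V) : Prop where
  sub : S ⊆ H
  star : Star G S
  pne : P.Nonempty
  qne : Q.Nonempty
  un : ∀ z, z ∈ H ∧ z ∉ S ↔ z ∈ P ∨ z ∈ Q
  dis : ∀ z, z ∈ P → z ∉ Q
  nadj : ∀ p ∈ P, ∀ q ∈ Q, ¬ G.Adj p q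

theorem Sep.symm {G : SimpleGraph V} {H S P Q : Set V} (h : Sep G H S P Q) : Sep G H S Q P where
  sub := h.sub
  star := h.star
  pne := h.qne
  qne := h.pne
  un := fun z => by rw [h.un z]; tauto
  dis := fun z hz hz' => h.dis z hz' hz
  nadj := fun p hp q hq hpq => h.nadj q hq p hp hpq.symm

theorem one_nbr {G : SimpleGraph V} (h3 : Tri G) (h4 : Quad G) {S : Set V} (hS : Star G S)
    {x y z : V} (hx : x ∉ S) (hy : y ∈ S) (hz : z ∈ S) (hxy : G.Adj x y) (hxz : G.Adj x z) :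
    y = z := by
  obtain ⟨s, hs, hst⟩ := hS
  by_cases hys : y = s
  · by_cases hzs : z = s
    · rw [hys, hzs]
    · subst hys
      exact absurd (hst z hz hzs) (h3 x y z hxy hxz)
  · by_cases hzs : z = s
    · subst hzs
      exact absurd (hst y hy hys) (h3 x z y hxz hxy)
    · rcases h4 x s y z hxy hxz (hst y hy hys) (hst z hz hzs) with h | h
      · subst h
        exact absurd hs hx
      · exact h

theorem star_bip {G : SimpleGraph V} (h3 : Tri G) {S D : Set V} (hS : Star G S) (hD : D ⊆ S)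
    {k : ℕ} (hk : 2 ≤ k) : (G.induce D).Colorable k := by
  classical
  obtain ⟨s, hs, hst⟩ := hS
  refine SimpleGraph.Colorable.mono hk ⟨SimpleGraph.Coloring.mk
    (fun z : ↥D => if z.1 = s then (0 : Fin 2) else 1) ?_⟩
  intro z w hzw
  have hzw' : G.Adj z.1 w.1 := hzw
  by_cases hz : z.1 = s
  · have hw : w.1 ≠ s := by
      intro e
      rw [hz, e] at hzw'
      exact G.loopless.irrefl _ hzw'
    rw [if_pos hz, if_neg hw]
    decide
  · by_cases hw : w.1 = s
    · rw [if_neg hz, if_pos hw]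
      decide
    · exact absurd hzw' (h3 s z.1 w.1 (hst _ (hD z.2) hz) (hst _ (hD w.2) hw))

/-- the empty cut -/
theorem case_empty {G : SimpleGraph V} [Finite V] {U D S P Q : Set V}
    (hD : Cut G U ∅ D) (hmin : ∀ D' X', Fam G X' → Cut G U X' D' → D.ncard ≤ D'.ncard)
    (hsep : Sep G (D ∪ ∅) S P Q) : False := by
  have hPD : P ⊆ D := fun z hz => by
    have := ((hsep.un z).2 (Or.inl hz)).1
    simpa using this
  have hSD : S ⊆ D := fun z hz => by
    have := hsep.sub hz
    simpa using this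
  have h1 : Cut G U S P := by
    refine ⟨hsep.pne, hPD.trans hD.2.1, hSD.trans hD.2.1, ?_, ?_⟩
    · rw [Set.disjoint_left]
      intro z hz hzS
      exact ((hsep.un z).2 (Or.inl hz)).2 hzS
    · intro d hd u hu hadj
      by_cases huS : u ∈ S
      · exact Or.inr huS
      · left
        have h2 : u ∈ D := by
          rcases hD.2.2.2.2 d (hPD hd) u hu hadj with h | h
          · exact h
          · exact h.elim
        rcases (hsep.un u).1 ⟨Or.inl h2, huS⟩ with h | h
        · exact h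
        · exact absurd hadj (hsep.nadj _ hd _ h)
  have h2 := hmin P S (Or.inr (Or.inl hsep.star)) h1
  have h3 : P = D := Set.eq_of_subset_of_ncard_le hPD h2 (Set.toFinite _)
  obtain ⟨q, hq⟩ := hsep.qne
  have h4 := ((hsep.un q).2 (Or.inr hq)).1
  have h5 : q ∈ D := by simpa using h4
  rw [← h3] at h5
  exact hsep.dis q h5 hq

/-- the part of `D` on one side of a separation is cut off by a suitable set -/
theorem side {G : SimpleGraph V} {U X D S P Q Y : Set V} (hD : Cut G U X D)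
    (hsep : Sep G (D ∪ X) S P Q) (hY : Y ⊆ X ∪ S) (hSY : S ⊆ Y)
    (hXY : ∀ u ∈ X, u ∈ Q → u ∈ Y) (hne : (D ∩ Q).Nonempty) : Cut G U Y (D ∩ Q) := by
  obtain ⟨-, hDU, hXU, hdis, hnb⟩ := hD
  refine ⟨hne, fun z hz => hDU hz.1, ?_, ?_, ?_⟩
  · intro z hz
    rcases hY hz with h | h
    · exact hXU h
    · rcases hsep.sub h with h | h
      · exact hDU h
      · exact hXU h
  · rw [Set.disjoint_left]
    rintro z ⟨hzD, hzQ⟩ hzY
    rcases hY hzY with h | h
    · exact Set.disjoint_left.1 hdis hzD h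
    · exact ((hsep.un z).2 (Or.inr hzQ)).2 h
  · rintro d ⟨hdD, hdQ⟩ u hu hadj
    by_cases huS : u ∈ S
    · exact Or.inr (hSY huS)
    · have h1 := hnb d hdD u hu hadj
      have h2 : u ∈ Q := by
        rcases (hsep.un u).1 ⟨h1, huS⟩ with h | h
        · exact absurd hadj.symm (hsep.nadj _ h _ hdQ)
        · exact h
      rcases h1 with h | h
      · exact Or.inl ⟨h, h2⟩
      · exact Or.inr (hXY u h h2)

theorem side_all {G : SimpleGraph V} [Finite V] {U X D S P Q Y : Set V} (hD : Cut G U X D)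
    (hmin : ∀ D' X', Fam G X' → Cut G U X' D' → D.ncard ≤ D'.ncard)
    (hsep : Sep G (D ∪ X) S P Q) (hY : Y ⊆ X ∪ S) (hSY : S ⊆ Y)
    (hXY : ∀ u ∈ X, u ∈ Q → u ∈ Y) (hF : Fam G Y) : D ∩ Q = ∅ ∨ D ⊆ Q := by
  rcases Set.eq_empty_or_nonempty (D ∩ Q) with h | h
  · exact Or.inl h
  · right
    have h1 := hmin _ _ hF (side hD hsep hY hSY hXY h)
    have h2 : D ∩ Q = D :=
      Set.eq_of_subset_of_ncard_le Set.inter_subset_left h1 (Set.toFinite _)
    rw [← h2]
    exact Set.inter_subset_right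

/-- if all of `X` outside of the star is on one side then the star alone cuts off `D` -/
theorem caseA {G : SimpleGraph V} [Finite V] {U X D S P Q : Set V} (hD : Cut G U X D)
    (hmin : ∀ D' X', Fam G X' → Cut G U X' D' → D.ncard ≤ D'.ncard)
    (hsep : Sep G (D ∪ X) S P Q) (hX : ∀ u ∈ X, u ∉ S → u ∈ P) :
    Cut G U S D ∧ D ⊆ Q := by
  have hXQ : ∀ u ∈ X, u ∈ Q → u ∈ S := by
    intro u hu huQ
    exact absurd huQ (hsep.dis u (hX u hu ((hsep.un u).2 (Or.inr huQ)).2))
  have hne : (D ∩ Q).Nonempty := by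
    obtain ⟨q, hq⟩ := hsep.qne
    have h1 := (hsep.un q).2 (Or.inr hq)
    rcases h1.1 with h | h
    · exact ⟨q, h, hq⟩
    · exact absurd (hXQ q h hq) h1.2
  have h1 := side hD hsep (Y := S) Set.subset_union_right (fun z hz => hz) hXQ hne
  have h2 := hmin _ _ (Or.inr (Or.inl hsep.star)) h1
  have h3 : D ∩ Q = D :=
    Set.eq_of_subset_of_ncard_le Set.inter_subset_left h2 (Set.toFinite _)
  rw [h3] at h1
  refine ⟨h1, ?_⟩
  rw [← h3]
  exact Set.inter_subset_right

theorem drop {G : SimpleGraph V} {U X D : Set V} (hD : Cut G U X D) {x : V}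
    (hx : ∀ d ∈ D, ¬ G.Adj d x) : Cut G U (X \ {x}) D := by
  obtain ⟨h1, hDU, hXU, hdis, hnb⟩ := hD
  refine ⟨h1, hDU, fun z hz => hXU hz.1, hdis.mono_right Set.diff_subset, ?_⟩
  intro d hd u hu hadj
  rcases hnb d hd u hu hadj with h | h
  · exact Or.inl h
  · right
    refine ⟨h, ?_⟩
    rintro rfl
    exact hx d hd hadj

theorem ncard_drop {X : Set V} [Finite V] {x : V} (hx : x ∈ X) : (X \ {x}).ncard < X.ncard :=
  Set.ncard_diff_singleton_lt_of_mem hx (Set.toFinite _)

/-- the cut by one star -/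
theorem case_star {G : SimpleGraph V} [Finite V] (h3 : Tri G) {k : ℕ} (hk : 2 ≤ k)
    {U X D S P Q : Set V} (hD : Cut G U X D)
    (hmin : ∀ D' X', Fam G X' → Cut G U X' D' → D.ncard ≤ D'.ncard)
    (hX : Star G X) (hXmin : ∀ X', Star G X' → Cut G U X' D → X.ncard ≤ X'.ncard)
    (hcol : ¬ (G.induce D).Colorable k)
    (hsep : Sep G (D ∪ X) S P Q) : False := by
  obtain ⟨v, hvX, hv⟩ := hX
  -- minimality
  have hnb : ∀ x ∈ X, x ≠ v → ∃ d ∈ D, G.Adj d x := by
    intro x hx hxv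
    by_contra hcon
    push Not at hcon
    have h1 := drop hD hcon
    have h2 : Star G (X \ {x}) := ⟨v, ⟨hvX, fun e => hxv e.symm⟩, fun w hw hwv => hv w hw.1 hwv⟩
    have h4 := hXmin _ h2 h1
    have h5 := ncard_drop (X := X) hx
    omega
  by_cases hvS : v ∈ S
  · have hF : Fam G (X ∪ S) := by
      obtain ⟨s, hs, hst⟩ := hsep.star
      by_cases hsv : s = v
      · subst hsv
        right; left
        refine ⟨s, Or.inl hvX, ?_⟩
        rintro w (hw | hw) hwv
        · exact hv w hw hwv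
        · exact hst w hw hwv
      · right; right
        refine ⟨v, s, Or.inl hvX, Or.inr hs, (hst v hvS (fun e => hsv e.symm)).symm, ?_⟩
        rintro w (hw | hw) hwv hws
        · exact Or.inl (hv w hw hwv)
        · exact Or.inr (hst w hw hws)
    have key : ∀ P Q, Sep G (D ∪ X) S P Q → ¬ D ⊆ Q := by
      intro P Q hsep hDQ
      obtain ⟨p, hp⟩ := hsep.pne
      have h1 := (hsep.un p).2 (Or.inl hp)
      have hpX : p ∈ X := by
        rcases h1.1 with h | h
        · exact absurd (hDQ h) (hsep.dis p hp)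
        · exact h
      have hpv : p ≠ v := by
        rintro rfl
        exact h1.2 hvS
      obtain ⟨d, hd, hdp⟩ := hnb p hpX hpv
      exact hsep.nadj p hp d (hDQ hd) hdp.symm
    have hQ := (side_all hD hmin hsep (Y := X ∪ S) (fun z hz => hz) Set.subset_union_right
      (fun u hu _ => Or.inl hu) hF).resolve_right (key _ _ hsep)
    have hP := (side_all hD hmin hsep.symm (Y := X ∪ S) (fun z hz => hz) Set.subset_union_right
      (fun u hu _ => Or.inl hu) hF).resolve_right (key _ _ hsep.symm)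
    apply hcol
    apply star_bip h3 hsep.star _ hk
    intro d hd
    by_contra hdS
    rcases (hsep.un d).1 ⟨Or.inl hd, hdS⟩ with h | h
    · have : d ∈ D ∩ P := ⟨hd, h⟩
      rw [hP] at this
      exact this
    · have : d ∈ D ∩ Q := ⟨hd, h⟩
      rw [hQ] at this
      exact this
  · have key : ∀ P Q, Sep G (D ∪ X) S P Q → v ∉ P := by
      intro P Q hsep hvP
      have h1 := caseA hD hmin hsep (by
        intro u hu huS
        rcases (hsep.un u).1 ⟨Or.inr hu, huS⟩ with h | h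
        · exact h
        · exfalso
          by_cases huv : u = v
          · subst huv
            exact hsep.dis _ hvP h
          · exact hsep.nadj v hvP u h (hv u hu huv))
      have h2 := hXmin S hsep.star h1.1
      have hSX : S ⊆ X \ {v} := by
        intro z hz
        rcases hsep.sub hz with h | h
        · exact absurd hz ((hsep.un z).2 (Or.inr (h1.2 h))).2
        · refine ⟨h, ?_⟩
          rintro rfl
          exact hvS hz
      have h4 := Set.ncard_le_ncard hSX (Set.toFinite _)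
      have h5 := ncard_drop (X := X) hvX
      omega
    rcases (hsep.un v).1 ⟨Or.inr hvX, hvS⟩ with h | h
    · exact key _ _ hsep h
    · exact key _ _ hsep.symm h

theorem DStar.symm {G : SimpleGraph V} {v₀ v₁ : V} {X : Set V} (h : DStar G v₀ v₁ X) :
    DStar G v₁ v₀ X :=
  ⟨h.2.1, h.1, h.2.2.1.symm, fun w hw h1 h2 => (h.2.2.2 w hw h2 h1).symm⟩

/-- double star, one centre in the cutset -/
theorem case_one {G : SimpleGraph V} [Finite V] (h3 : Tri G) (h4 : Quad G)
    {U X D S P Q : Set V} {v₀ v₁ : V} (hD : Cut G U X D)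
    (hmin : ∀ D' X', Fam G X' → Cut G U X' D' → D.ncard ≤ D'.ncard)
    (hX : DStar G v₀ v₁ X)
    (hnb : ∀ x ∈ X, x ≠ v₀ → x ≠ v₁ → ∃ d ∈ D, G.Adj d x)
    (ha : ∃ a ∈ X, a ≠ v₀ ∧ a ≠ v₁ ∧ G.Adj v₁ a)
    (hsep : Sep G (D ∪ X) S P Q) (h0 : v₀ ∈ S) (h1 : v₁ ∈ P) : False := by
  obtain ⟨h0X, h1X, h01, hall⟩ := hX
  have h1S : v₁ ∉ S := ((hsep.un v₁).2 (Or.inl h1)).2
  have hF : Fam G ({x | x ∈ X ∧ (x = v₀ ∨ G.Adj v₀ x)} ∪ S) := by
    obtain ⟨s, hs, hst⟩ := hsep.star
    by_cases hsv : s = v₀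
    · subst hsv
      right; left
      refine ⟨s, Or.inr hs, ?_⟩
      rintro w (hw | hw) hwv
      · exact hw.2.resolve_left hwv
      · exact hst w hw hwv
    · right; right
      refine ⟨v₀, s, Or.inr h0, Or.inr hs, (hst v₀ h0 (fun e => hsv e.symm)).symm, ?_⟩
      rintro w (hw | hw) hwv hws
      · exact Or.inl (hw.2.resolve_left hwv)
      · exact Or.inr (hst w hw hws)
  have hXQ : ∀ u ∈ X, u ∈ Q → u ≠ v₀ ∧ G.Adj v₀ u := by
    intro u hu huQ
    have e0 : u ≠ v₀ := by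
      rintro rfl
      exact ((hsep.un u).2 (Or.inr huQ)).2 h0
    have e1 : u ≠ v₁ := by
      rintro rfl
      exact hsep.dis u h1 huQ
    refine ⟨e0, ?_⟩
    rcases hall u hu e0 e1 with h | h
    · exact h
    · exact absurd h (hsep.nadj _ h1 _ huQ)
  rcases side_all hD hmin hsep (Y := {x | x ∈ X ∧ (x = v₀ ∨ G.Adj v₀ x)} ∪ S)
    (by
      rintro z (hz | hz)
      · exact Or.inl hz.1
      · exact Or.inr hz) Set.subset_union_right
    (fun u hu huQ => Or.inl ⟨hu, Or.inr (hXQ u hu huQ).2⟩) hF with h | h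
  · obtain ⟨a, haQ⟩ := hsep.qne
    have h5 := (hsep.un a).2 (Or.inr haQ)
    have haX : a ∈ X := by
      rcases h5.1 with h6 | h6
      · have : a ∈ D ∩ Q := ⟨h6, haQ⟩
        rw [h] at this
        exact this.elim
      · exact h6
    obtain ⟨e0, e2⟩ := hXQ a haX haQ
    have e1 : a ≠ v₁ := by
      rintro rfl
      exact hsep.dis a h1 haQ
    obtain ⟨d, hd, hda⟩ := hnb a haX e0 e1
    have hdS : d ∈ S := by
      by_contra hdS
      rcases (hsep.un d).1 ⟨Or.inl hd, hdS⟩ with h6 | h6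
      · exact hsep.nadj _ h6 _ haQ hda
      · have : d ∈ D ∩ Q := ⟨hd, h6⟩
        rw [h] at this
        exact this
    have h7 := one_nbr h3 h4 hsep.star h5.2 h0 hdS e2.symm hda.symm
    rw [← h7] at hd
    exact Set.disjoint_left.1 hD.2.2.2.1 hd h0X
  · obtain ⟨a, haX, a0, a1, haa⟩ := ha
    obtain ⟨d, hd, hda⟩ := hnb a haX a0 a1
    have haS : a ∈ S := by
      by_contra haS
      rcases (hsep.un a).1 ⟨Or.inr haX, haS⟩ with h6 | h6
      · exact hsep.nadj _ h6 _ (h hd) hda.symm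
      · exact hsep.nadj _ h1 _ h6 haa
    exact a0 (one_nbr h3 h4 hsep.star h1S haS h0 haa h01.symm)

/-- double star, both centres in the cutset, the first one is the centre of the cutset -/
theorem case_two {G : SimpleGraph V} [Finite V] (h3 : Tri G) {k : ℕ} (hk : 2 ≤ k)
    {U X D S P Q : Set V} {v₀ v₁ : V} (hD : Cut G U X D)
    (hmin : ∀ D' X', Fam G X' → Cut G U X' D' → D.ncard ≤ D'.ncard)
    (hX : DStar G v₀ v₁ X)
    (hnb : ∀ x ∈ X, x ≠ v₀ → x ≠ v₁ → ∃ d ∈ D, G.Adj d x)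
    (hcol : ¬ (G.induce D).Colorable k)
    (hsep : Sep G (D ∪ X) S P Q) (h0 : v₀ ∈ S) (h1 : v₁ ∈ S)
    (hc : ∀ w ∈ S, w ≠ v₀ → G.Adj v₀ w) : False := by
  obtain ⟨h0X, h1X, h01, hall⟩ := hX
  have hF : Fam G (X ∪ S) := by
    right; right
    refine ⟨v₀, v₁, Or.inl h0X, Or.inl h1X, h01, ?_⟩
    rintro w (hw | hw) e0 e1
    · exact hall w hw e0 e1
    · exact Or.inl (hc w hw e0)
  have key : ∀ P Q, Sep G (D ∪ X) S P Q → ¬ D ⊆ Q := by
    intro P Q hsep hDQ
    obtain ⟨p, hp⟩ := hsep.pne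
    have h5 := (hsep.un p).2 (Or.inl hp)
    have hpX : p ∈ X := by
      rcases h5.1 with h | h
      · exact absurd (hDQ h) (hsep.dis p hp)
      · exact h
    have e0 : p ≠ v₀ := by
      rintro rfl
      exact h5.2 h0
    have e1 : p ≠ v₁ := by
      rintro rfl
      exact h5.2 h1
    obtain ⟨d, hd, hdp⟩ := hnb p hpX e0 e1
    exact hsep.nadj p hp d (hDQ hd) hdp.symm
  have hQ := (side_all hD hmin hsep (Y := X ∪ S) (fun z hz => hz) Set.subset_union_right
    (fun u hu _ => Or.inl hu) hF).resolve_right (key _ _ hsep)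
  have hP := (side_all hD hmin hsep.symm (Y := X ∪ S) (fun z hz => hz) Set.subset_union_right
    (fun u hu _ => Or.inl hu) hF).resolve_right (key _ _ hsep.symm)
  apply hcol
  apply star_bip h3 hsep.star _ hk
  intro d hd
  by_contra hdS
  rcases (hsep.un d).1 ⟨Or.inl hd, hdS⟩ with h | h
  · have : d ∈ D ∩ P := ⟨hd, h⟩
    rw [hP] at this
    exact this
  · have : d ∈ D ∩ Q := ⟨hd, h⟩
    rw [hQ] at this
    exact this

/-- the cut by two stars -/
theorem case_dstar {G : SimpleGraph V} [Finite V] (h3 : Tri G) (h4 : Quad G) {k : ℕ}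
    (hk : 2 ≤ k) {U X D S P Q : Set V} {v₀ v₁ : V} (hD : Cut G U X D)
    (hmin : ∀ D' X', Fam G X' → Cut G U X' D' → D.ncard ≤ D'.ncard)
    (hX : DStar G v₀ v₁ X)
    (hXmin : ∀ X' w₀ w₁, DStar G w₀ w₁ X' → Cut G U X' D → X.ncard ≤ X'.ncard)
    (hns : ∀ X', Star G X' → ¬ Cut G U X' D)
    (hcol : ¬ (G.induce D).Colorable k)
    (hsep : Sep G (D ∪ X) S P Q) : False := by
  have hnb : ∀ x ∈ X, x ≠ v₀ → x ≠ v₁ → ∃ d ∈ D, G.Adj d x := by
    intro x hx e0 e1
    by_contra hcon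
    push Not at hcon
    have h1 := drop hD hcon
    have h2 : DStar G v₀ v₁ (X \ {x}) :=
      ⟨⟨hX.1, fun e => e0 e.symm⟩, ⟨hX.2.1, fun e => e1 e.symm⟩, hX.2.2.1,
        fun w hw => hX.2.2.2 w hw.1⟩
    have h5 := hXmin _ _ _ h2 h1
    have h6 := ncard_drop (X := X) hx
    omega
  have hns' : ∀ w₀ w₁, DStar G w₀ w₁ X → ∃ a ∈ X, a ≠ w₀ ∧ a ≠ w₁ ∧ G.Adj w₁ a := by
    intro w₀ w₁ hX
    by_contra hcon
    push Not at hcon
    refine hns X ⟨w₀, hX.1, ?_⟩ hD
    intro w hw hw0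
    by_cases hw1 : w = w₁
    · rw [hw1]
      exact hX.2.2.1
    · rcases hX.2.2.2 w hw hw0 hw1 with h | h
      · exact h
      · exact absurd h (hcon w hw hw0 hw1)
  by_cases h0 : v₀ ∈ S
  · by_cases h1 : v₁ ∈ S
    · obtain ⟨s, hs, hst⟩ := hsep.star
      by_cases e0 : s = v₀
      · subst e0
        exact case_two h3 hk hD hmin hX hnb hcol hsep h0 h1 hst
      · by_cases e1 : s = v₁
        · subst e1
          exact case_two h3 hk hD hmin hX.symm (fun x hx a b => hnb x hx b a) hcol hsep h1 h0 hst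
        · exact h3 s v₀ v₁ (hst _ h0 (fun e => e0 e.symm)) (hst _ h1 (fun e => e1 e.symm))
            hX.2.2.1
    · rcases (hsep.un v₁).1 ⟨Or.inr hX.2.1, h1⟩ with h | h
      · exact case_one h3 h4 hD hmin hX hnb (hns' _ _ hX) hsep h0 h
      · exact case_one h3 h4 hD hmin hX hnb (hns' _ _ hX) hsep.symm h0 h
  · by_cases h1 : v₁ ∈ S
    · have hX' := hX.symm
      have hnb' : ∀ x ∈ X, x ≠ v₁ → x ≠ v₀ → ∃ d ∈ D, G.Adj d x := fun x hx a b => hnb x hx b a
      rcases (hsep.un v₀).1 ⟨Or.inr hX.1, h0⟩ with h | h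
      · exact case_one h3 h4 hD hmin hX' hnb' (hns' _ _ hX') hsep h1 h
      · exact case_one h3 h4 hD hmin hX' hnb' (hns' _ _ hX') hsep.symm h1 h
    · have key : ∀ P Q, Sep G (D ∪ X) S P Q → v₀ ∉ P := by
        intro P Q hsep hv
        have hv1 : v₁ ∈ P := by
          rcases (hsep.un v₁).1 ⟨Or.inr hX.2.1, h1⟩ with h | h
          · exact h
          · exact absurd hX.2.2.1 (hsep.nadj _ hv _ h)
        refine hns S hsep.star (caseA hD hmin hsep ?_).1
        intro u hu huS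
        rcases (hsep.un u).1 ⟨Or.inr hu, huS⟩ with h | h
        · exact h
        · exfalso
          by_cases e0 : u = v₀
          · subst e0
            exact hsep.dis _ hv h
          · by_cases e1 : u = v₁
            · subst e1
              exact hsep.dis _ hv1 h
            · rcases hX.2.2.2 u hu e0 e1 with h5 | h5
              · exact hsep.nadj _ hv _ h h5
              · exact hsep.nadj _ hv1 _ h h5
      rcases (hsep.un v₀).1 ⟨Or.inr hX.1, h0⟩ with h | h
      · exact key _ _ hsep h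
      · exact key _ _ hsep.symm h

end Pool.Agent.Lib.MP_4f8534_co.Finite
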