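import Pool.Agent.Lib.MP_4f8534_co.Color

/-!
# Triangle-freeness and the star cutset dichotomy
-/

set_option autoImplicit false

namespace Pool.Agent.Lib.MP_4f8534_co

universe u

open Node

variable {I : Type u}

theorem not_adj_of_le {a b : Vert I} (h : le a.1 b.1) : ¬ (graph I).Adj a b := by
  rintro (h1 | h1)
  · exact not_arc_of_le' b.2 h h1
  · exact not_arc_of_le h h1

theorem cliqueFree_three (I : Type u) : (graph I).CliqueFree 3 := by
  classical
  intro s hs
  obtain ⟨a, b, c, hab, hac, hbc, -⟩ := SimpleGraph.is3Clique_iff.1 hs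
  have two_out : ∀ x y z : Vert I, Arc x.1 y.1 → Arc x.1 z.1 → (graph I).Adj y z → False := by
    intro x y z h1 h2 h3
    rcases Arc.comparable x.2 h1 h2 with h | h
    · exact not_adj_of_le h h3
    · exact not_adj_of_le h h3.symm
  have hab' := hab
  have hac' := hac
  have hbc' := hbc
  rcases hab with h1 | h1 <;> rcases hac with h2 | h2 <;> rcases hbc with h3 | h3
  · exact two_out a b c h1 h2 hbc'
  · exact two_out a b c h1 h2 hbc'
  · exact ((h3.sub.trans h1.sub).trans h2.sub).irrefl
  · exact two_out c a b h2 h3 hab'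
  · exact two_out b a c h1 h3 hac'
  · exact ((h2.sub.trans h1.sub).trans h3.sub).irrefl
  · exact two_out b a c h1 h3 hac'
  · exact two_out c a b h2 h3 hab'

/-- A set of vertices closed under adjacency is closed under reachability. -/
theorem closed_reachable {V : Type u} {G : SimpleGraph V} {S : Set V}
    (hS : ∀ a b, a ∈ S → G.Adj a b → b ∈ S) {a b : V} (ha : a ∈ S) (h : G.Reachable a b) :
    b ∈ S := by
  obtain ⟨p⟩ := h
  induction p with
  | nil => exact ha
  | cons hadj _ ih => exact ih (hS _ _ ha hadj)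

/-- The cutset lemma: if `z` has a vertex of `T` strictly above it and a vertex of `T` outside its
cone which is not a neighbour, then the closed neighbourhood of `z` separates them. -/
theorem cutset {T : Set (Vert I)} {z u w : Vert I} (hu : u ∈ T) (hw : w ∈ T)
    (hzu : le z.1 u.1) (hne : u ≠ z) (hzw : ¬ le z.1 w.1) (hadj : ¬ (graph I).Adj z w) :
    ∃ a b : ↥(T \ insert z ((graph I).neighborSet z)),
      ¬ ((graph I).induce (T \ insert z ((graph I).neighborSet z))).Reachable a b := by
  have hu' : u ∈ T \ insert z ((graph I).neighborSet z) := by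
    refine ⟨hu, ?_⟩
    rintro (h | h)
    · exact hne h
    · exact not_adj_of_le hzu h
  have hw' : w ∈ T \ insert z ((graph I).neighborSet z) := by
    refine ⟨hw, ?_⟩
    rintro (h | h)
    · subst h; exact hzw (Node.le_refl _)
    · exact hadj h
  refine ⟨⟨u, hu'⟩, ⟨w, hw'⟩, fun hr => ?_⟩
  have hcl := closed_reachable
    (G := (graph I).induce (T \ insert z ((graph I).neighborSet z)))
    (S := {t | le z.1 t.1.1}) (by
      rintro ⟨a, ha⟩ ⟨b, hb⟩ hza hab
      by_contra hzb
      have hab' : (graph I).Adj a b := hab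
      have haz : a.1 ≠ z.1 := fun h => ha.2 (Or.inl (Subtype.ext h))
      have h1 : Arc b.1 z.1 := boundary a.2 b.2 hza haz hzb hab'.symm
      exact hb.2 (Or.inr (Or.inr h1))) (a := ⟨u, hu'⟩) (b := ⟨w, hw'⟩) hzu hr
  exact hzw hcl

/-- The graph induced on an antichain of nodes is a forest. -/
theorem acyclic_of_antichain {A : Set (Vert I)}
    (hA : ∀ a ∈ A, ∀ b ∈ A, le a.1 b.1 → a = b) : ((graph I).induce A).IsAcyclic := by
  classical
  have uniq : ∀ a b c : ↥A, Arc a.1.1 b.1.1 → Arc a.1.1 c.1.1 → b = c := by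
    intro a b c h1 h2
    rcases Arc.comparable a.1.2 h1 h2 with h | h
    · exact Subtype.ext (hA b.1 b.2 c.1 c.2 h)
    · exact (Subtype.ext (hA c.1 c.2 b.1 b.2 h)).symm
  -- an arc inside the antichain is a bridge
  have key : ∀ v u : ↥A, Arc v.1.1 u.1.1 →
      ¬ (((graph I).induce A).deleteEdges {s(v, u)}).Reachable v u := by
    intro v u hvu hr
    let D : Set ↥A := {w | Relation.ReflTransGen (fun p q : ↥A => Arc p.1.1 q.1.1) w v}
    have hcl : ∀ a b, a ∈ D → (((graph I).induce A).deleteEdges {s(v, u)}).Adj a b → b ∈ D := by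
      intro a b ha hab
      rw [SimpleGraph.deleteEdges_adj] at hab
      obtain ⟨hab, hne⟩ := hab
      have hab' : Arc a.1.1 b.1.1 ∨ Arc b.1.1 a.1.1 := hab
      rcases hab' with h | h
      · rcases Relation.ReflTransGen.cases_head ha with h1 | ⟨c, h1, h2⟩
        · exfalso
          subst h1
          have : b = u := uniq _ _ _ h hvu
          subst this
          exact hne rfl
        · have : b = c := uniq _ _ _ h h1
          subst this
          exact h2
      · exact Relation.ReflTransGen.head h ha
    have hu : u ∈ D := closed_reachable hcl (Relation.ReflTransGen.refl) hr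
    have hsub : ∀ w, Relation.ReflTransGen (fun p q : ↥A => Arc p.1.1 q.1.1) w v →
        w = v ∨ Sub v.1.1 w.1.1 := by
      intro w hw
      induction hw using Relation.ReflTransGen.head_induction_on with
      | refl => exact Or.inl rfl
      | head h _ ih =>
        rcases ih with ih | ih
        · subst ih; exact Or.inr h.sub
        · exact Or.inr (ih.trans h.sub)
    rcases hsub u hu with h | h
    · subst h; exact hvu.sub.irrefl
    · exact (h.trans hvu.sub).irrefl
  rw [SimpleGraph.isAcyclic_iff_forall_adj_isBridge]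
  intro v w hvw
  have hvw' : Arc v.1.1 w.1.1 ∨ Arc w.1.1 v.1.1 := hvw
  rw [SimpleGraph.isBridge_iff]
  rcases hvw' with h | h
  · exact key v w h
  · intro hr
    rw [Sym2.eq_swap] at hr
    exact key w v h hr.symm

/-- A graph which becomes a forest after removing one vertex is 3-colourable. -/
theorem colorable_three {V : Type u} (G : SimpleGraph V) (T : Set V) (v : V)
    (h : (G.induce (T \ {v})).IsAcyclic) : (G.induce T).Colorable 3 := by
  classical
  obtain ⟨f⟩ := h.colorable_two
  refine ⟨SimpleGraph.Coloring.mk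
    (fun t : ↥T => if ht : t.1 = v then (2 : Fin 3) else (f ⟨t.1, t.2, ht⟩).castSucc) ?_⟩
  intro a b hab
  by_cases ha : a.1 = v
  · by_cases hb : b.1 = v
    · exfalso
      have : a = b := Subtype.ext (ha.trans hb.symm)
      subst this
      exact (SimpleGraph.irrefl _) hab
    · simp only [dif_pos ha, dif_neg hb]
      intro h
      have := congrArg Fin.val h
      have h2 := (f ⟨b.1, b.2, hb⟩).2
      simp at this
      omega
  · by_cases hb : b.1 = v
    · simp only [dif_neg ha, dif_pos hb]
      intro h
      have := congrArg Fin.val h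
      have h2 := (f ⟨a.1, a.2, ha⟩).2
      simp at this
      omega
    · simp only [dif_neg ha, dif_neg hb]
      intro h
      have h3 := Fin.castSucc_injective _ h
      refine f.valid (v := ⟨a.1, a.2, ha⟩) (w := ⟨b.1, b.2, hb⟩) ?_ h3
      exact hab

/-- The dichotomy for induced subgraphs: a forest and one further vertex, or a full star
cutset. -/
theorem dichotomy [Nonempty I] (T : Set (Vert I)) :
    (∃ v, ((graph I).induce (T \ {v})).IsAcyclic) ∨
    ∃ v ∈ T, ∃ a b : ↥(T \ insert v ((graph I).neighborSet v)),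
      ¬ ((graph I).induce (T \ insert v ((graph I).neighborSet v))).Reachable a b := by
  classical
  by_contra hcon
  push Not at hcon
  obtain ⟨hno, hcut⟩ := hcon
  -- every non-maximal vertex sees everything outside its cone
  have hsee : ∀ z ∈ T, ∀ u ∈ T, ∀ w ∈ T, le z.1 u.1 → u ≠ z → ¬ le z.1 w.1 →
      (graph I).Adj z w := by
    intro z hz u hu w hw h1 h2 h3
    by_contra h4
    obtain ⟨a, b, hab⟩ := cutset hu hw h1 h2 h3 h4
    exact hab (hcut z hz a b)
  have huniq : ∀ z ∈ T, ∀ u ∈ T, le z.1 u.1 → u ≠ z → ∀ z' ∈ T, ∀ u' ∈ T, le z'.1 u'.1 →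
      u' ≠ z' → z = z' := by
    intro z hz u hu h1 h2 z' hz' u' hu' h1' h2'
    by_contra hne
    by_cases hzz : le z.1 z'.1
    · have hn : ¬ le z'.1 z.1 := fun h => hne (Subtype.ext (le_antisymm hzz h))
      exact not_adj_of_le hzz (hsee z' hz' u' hu' z hz h1' h2' hn).symm
    by_cases hzz' : le z'.1 z.1
    · exact not_adj_of_le hzz' (hsee z hz u hu z' hz' h1 h2 hzz).symm
    -- incomparable
    have e1 : ¬ le z'.1 u.1 := by
      intro h
      rcases Node.comparable u.2 h1 h with h | h
      · exact hzz h
      · exact hzz' h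
    have e2 : ¬ le z.1 u'.1 := by
      intro h
      rcases Node.comparable u'.2 h1' h with h | h
      · exact hzz' h
      · exact hzz h
    have a1 : (graph I).Adj z' u := hsee z' hz' u' hu' u hu h1' h2' e1
    have a2 : (graph I).Adj z u' := hsee z hz u hu u' hu' h1 h2 e2
    have b1 : Arc z'.1 z.1 :=
      boundary u.2 z'.2 h1 (fun h => h2 (Subtype.ext h)) hzz a1
    have b2 : Arc z.1 z'.1 :=
      boundary u'.2 z.2 h1' (fun h => h2' (Subtype.ext h)) hzz' a2
    exact (b1.sub.trans b2.sub).irrefl
  by_cases hex : ∃ z ∈ T, ∃ u ∈ T, le z.1 u.1 ∧ u ≠ z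
  · obtain ⟨z, hz, u, hu, h1, h2⟩ := hex
    refine hno z (acyclic_of_antichain ?_)
    intro a ha b hb hab
    by_contra hne
    exact ha.2 (huniq z hz u hu h1 h2 a ha.1 b hb.1 hab (fun h => hne h.symm)).symm
  · refine hno ⟨Node.root, trivial⟩ (acyclic_of_antichain ?_)
    intro a ha b hb hab
    by_contra hne
    exact hex ⟨a, ha.1, b, hb.1, hab, fun h => hne h.symm⟩

end Pool.Agent.Lib.MP_4f8534_co
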