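import Mathlib

/-!
# The universal Burling tree over a colour type

Nodes of a tree which is closed under limits of chains indexed by `I`; every node `x` has a
distinguished child `last x`, and for every chain `P` above `last x` a further child `side x P`.
The graph joins `side x P` to all nodes between `last x` and some member of the chain `P`.
-/

set_option autoImplicit false

namespace Pool.Agent.Lib.MP_4f8534_co

universe u

/-- Nodes: the root, the distinguished child of a node, a further child of a node attached to a
family of nodes, and the limit of a family of nodes. -/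
inductive Node (I : Type u) : Type u
  | root : Node I
  | last : Node I → Node I
  | side : Node I → (I → Node I) → Node I
  | lim : (I → Node I) → Node I

namespace Node

variable {I : Type u}

/-- `le u z`: the node `u` is equal to `z` or an ancestor of `z`. -/
def le (u : Node I) : Node I → Prop
  | root => u = root
  | last x => u = last x ∨ le u x
  | side x P => u = side x P ∨ le u x
  | lim s => u = lim s ∨ ∃ i, le u (s i)

/-- The families used in a valid node are chains, and the family of `side x P` lies above
`last x`. -/
def Valid : Node I → Prop
  | root => True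
  | last x => Valid x
  | side x P => Valid x ∧ (∀ i, Valid (P i)) ∧ (∀ i, le (last x) (P i)) ∧
      ∀ i j, le (P i) (P j) ∨ le (P j) (P i)
  | lim s => (∀ i, Valid (s i)) ∧ ∀ i j, le (s i) (s j) ∨ le (s j) (s i)

/-- Immediate subterms. -/
inductive Child : Node I → Node I → Prop
  | last (x : Node I) : Child x (last x)
  | side (x : Node I) (P : I → Node I) : Child x (side x P)
  | fam (x : Node I) (P : I → Node I) (i : I) : Child (P i) (side x P)
  | lim (s : I → Node I) (i : I) : Child (s i) (lim s)

/-- Proper subterms. -/
def Sub (u z : Node I) : Prop := Relation.TransGen Child u z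

theorem child_wf : WellFounded (Child (I := I)) := by
  refine ⟨fun z => ?_⟩
  induction z with
  | root => exact ⟨_, fun y hy => by cases hy⟩
  | last x ih => exact ⟨_, fun y hy => by cases hy; exact ih⟩
  | side x P ih1 ih2 =>
    refine ⟨_, fun y hy => ?_⟩
    cases hy with
    | side => exact ih1
    | fam _ _ i => exact ih2 i
  | lim s ih =>
    refine ⟨_, fun y hy => ?_⟩
    cases hy with
    | lim _ i => exact ih i

theorem sub_wf : WellFounded (Sub (I := I)) := child_wf.transGen

theorem Sub.trans {a b c : Node I} (h1 : Sub a b) (h2 : Sub b c) : Sub a c :=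
  Relation.TransGen.trans h1 h2

theorem Sub.irrefl {a : Node I} (h : Sub a a) : False :=
  (sub_wf (I := I)).irrefl.irrefl a h

theorem Sub.single {a b : Node I} (h : Child a b) : Sub a b := Relation.TransGen.single h

theorem le_refl (u : Node I) : le u u := by
  cases u with
  | root => rfl
  | last x => exact Or.inl rfl
  | side x P => exact Or.inl rfl
  | lim s => exact Or.inl rfl

theorem le_trans {u v w : Node I} (h1 : le u v) (h2 : le v w) : le u w := by
  induction w with
  | root => simp only [le] at h2; subst h2; exact h1
  | last x ih =>
    rcases h2 with h2 | h2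
    · subst h2; exact h1
    · exact Or.inr (ih h2)
  | side x P ih1 _ =>
    rcases h2 with h2 | h2
    · subst h2; exact h1
    · exact Or.inr (ih1 h2)
  | lim s ih =>
    rcases h2 with h2 | ⟨i, h2⟩
    · subst h2; exact h1
    · exact Or.inr ⟨i, ih i h2⟩

theorem le_iff_eq_or_sub {u z : Node I} (h : le u z) : u = z ∨ Sub u z := by
  induction z with
  | root => exact Or.inl h
  | last x ih =>
    rcases h with h | h
    · exact Or.inl h
    · right
      rcases ih h with h | h
      · subst h; exact Sub.single (Child.last _)
      · exact h.trans (Sub.single (Child.last _))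
  | side x P ih1 _ =>
    rcases h with h | h
    · exact Or.inl h
    · right
      rcases ih1 h with h | h
      · subst h; exact Sub.single (Child.side _ _)
      · exact h.trans (Sub.single (Child.side _ _))
  | lim s ih =>
    rcases h with h | ⟨i, h⟩
    · exact Or.inl h
    · right
      rcases ih i h with h | h
      · subst h; exact Sub.single (Child.lim _ _)
      · exact h.trans (Sub.single (Child.lim _ _))

theorem le_antisymm {u z : Node I} (h1 : le u z) (h2 : le z u) : u = z := by
  rcases le_iff_eq_or_sub h1 with h | h
  · exact h
  · rcases le_iff_eq_or_sub h2 with h' | h'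
    · exact h'.symm
    · exact (h.trans h').irrefl.elim

/-- A term below a subterm is a subterm. -/
theorem sub_of_le_of_sub {u v w : Node I} (h1 : le u v) (h2 : Sub v w) : Sub u w := by
  rcases le_iff_eq_or_sub h1 with h | h
  · subst h; exact h2
  · exact h.trans h2

theorem root_le [Nonempty I] (z : Node I) : le root z := by
  induction z with
  | root => rfl
  | last x ih => exact Or.inr ih
  | side x P ih1 _ => exact Or.inr ih1
  | lim s ih => exact Or.inr ⟨Classical.arbitrary I, ih _⟩

theorem valid_of_le {u z : Node I} (h : le u z) (hz : Valid z) : Valid u := by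
  induction z with
  | root => simp only [le] at h; subst h; exact hz
  | last x ih =>
    rcases h with h | h
    · subst h; exact hz
    · exact ih h hz
  | side x P ih1 _ =>
    rcases h with h | h
    · subst h; exact hz
    · exact ih1 h hz.1
  | lim s ih =>
    rcases h with h | ⟨i, h⟩
    · subst h; exact hz
    · exact ih i h (hz.1 i)

/-- The ancestors of a valid node form a chain. -/
theorem comparable {u v z : Node I} (hz : Valid z) (hu : le u z) (hv : le v z) :
    le u v ∨ le v u := by
  induction z with
  | root => simp only [le] at hu hv; subst hu; subst hv; exact Or.inl (le_refl _)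
  | last x ih =>
    rcases hu with hu | hu
    · subst hu; exact Or.inr hv
    · rcases hv with hv | hv
      · subst hv; exact Or.inl (Or.inr hu)
      · exact ih hz hu hv
  | side x P ih1 _ =>
    rcases hu with hu | hu
    · subst hu; exact Or.inr hv
    · rcases hv with hv | hv
      · subst hv; exact Or.inl (Or.inr hu)
      · exact ih1 hz.1 hu hv
  | lim s ih =>
    rcases hu with hu | ⟨i, hu⟩
    · subst hu; exact Or.inr hv
    · rcases hv with hv | ⟨j, hv⟩
      · subst hv; exact Or.inl (Or.inr ⟨i, hu⟩)
      · rcases hz.2 i j with h | h
        · exact ih j (hz.1 j) (le_trans hu h) hv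
        · exact ih i (hz.1 i) hu (le_trans hv h)

/-- Arcs of the graph: `side x P` points to the nodes between `last x` and a member of `P`. -/
def Arc (v u : Node I) : Prop :=
  ∃ x P, v = side x P ∧ le (last x) u ∧ ∃ i, le u (P i)

theorem Arc.sub {v u : Node I} (h : Arc v u) : Sub u v := by
  obtain ⟨x, P, rfl, _, i, hi⟩ := h
  exact sub_of_le_of_sub hi (Sub.single (Child.fam x P i))

/-- Two out-neighbours of a valid node are comparable. -/
theorem Arc.comparable {v u w : Node I} (hv : Valid v) (h1 : Arc v u) (h2 : Arc v w) :
    le u w ∨ le w u := by
  obtain ⟨x, P, rfl, _, i, hi⟩ := h1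
  obtain ⟨x', P', h, _, j, hj⟩ := h2
  obtain ⟨rfl, rfl⟩ : x = x' ∧ P = P' := by simpa using h
  rcases hv.2.2.2 i j with h | h
  · exact Node.comparable (hv.2.1 j) (le_trans hi h) hj
  · exact Node.comparable (hv.2.1 i) hi (le_trans hj h)

/-- Comparable nodes are not joined by an arc (first direction). -/
theorem not_arc_of_le {u w : Node I} (h : le u w) : ¬ Arc w u := by
  rintro ⟨x, P, rfl, h1, i, hi⟩
  rcases h with h | h
  · subst h
    exact (sub_of_le_of_sub hi (Sub.single (Child.fam x P i))).irrefl
  · exact (sub_of_le_of_sub (le_trans h1 h) (Sub.single (Child.last x))).irrefl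

/-- Comparable nodes are not joined by an arc (second direction). -/
theorem not_arc_of_le' {u w : Node I} (hw : Valid w) (h : le u w) : ¬ Arc u w := by
  rintro ⟨x, P, rfl, h1, i, hi⟩
  rcases comparable hw h1 h with h2 | h2
  · rcases h2 with h2 | h2
    · exact nomatch h2
    · exact (sub_of_le_of_sub h2 (Sub.single (Child.last x))).irrefl
  · rcases h2 with h2 | h2
    · exact nomatch h2
    · exact (sub_of_le_of_sub h2 (Sub.single (Child.side x P))).irrefl

/-- Boundary lemma: a node outside the cone of `z` joined to a node strictly inside the cone
points to `z`. -/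
theorem boundary {z u w : Node I} (hu : Valid u) (hw : Valid w) (hzu : le z u) (hne : u ≠ z)
    (hzw : ¬ le z w) (h : Arc w u ∨ Arc u w) : Arc w z := by
  rcases h with ⟨y, Q, rfl, h1, i, hi⟩ | ⟨x, P, rfl, h1, i, hi⟩
  · rcases comparable hu h1 hzu with h2 | h2
    · exact ⟨y, Q, rfl, h2, i, le_trans hzu hi⟩
    · rcases h2 with h2 | h2
      · exact ⟨y, Q, rfl, h2 ▸ le_refl _, i, le_trans hzu hi⟩
      · exact (hzw (Or.inr h2)).elim
  · rcases hzu with h2 | h2
    · exact (hne h2.symm).elim
    · exact (hzw (le_trans (show le z (last x) from Or.inr h2) h1)).elim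

end Node

end Pool.Agent.Lib.MP_4f8534_co
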