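import Mathlib

set_option autoImplicit false

/-!
The class `C` of the problem and its closure under the replacement of vertices by sets of
pairwise nonadjacent twins.
-/

namespace Pool.Agent.Lib.MP_4f8534_co.Finite

/-- every induced subgraph is 3-colourable or has a star cutset -/
def InC {V : Type} (G : SimpleGraph V) : Prop :=
  ∀ T : Set V, (G.induce T).Colorable 3 ∨
    ∃ S : Set V, S ⊆ T ∧ (∃ v ∈ S, ∀ w ∈ S, w ≠ v → G.Adj v w) ∧
      ∃ a b : ↥(T \ S), ¬ (G.induce (T \ S)).Reachable a b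

theorem cliqueFree_comap {V W : Type} (f : W → V) (G : SimpleGraph V) (h : G.CliqueFree 3) :
    (G.comap f).CliqueFree 3 := by
  classical
  intro s hs
  rw [SimpleGraph.is3Clique_iff] at hs
  obtain ⟨a, b, c, hab, hac, hbc, -⟩ := hs
  have hab' : G.Adj (f a) (f b) := hab
  have hac' : G.Adj (f a) (f c) := hac
  have hbc' : G.Adj (f b) (f c) := hbc
  exact h {f a, f b, f c} (SimpleGraph.is3Clique_triple_iff.2 ⟨hab', hac', hbc'⟩)

theorem inC_comap {V W : Type} (f : W → V) (G : SimpleGraph V) (h3 : G.CliqueFree 3)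
    (h : InC G) : InC (G.comap f) := by
  classical
  intro T
  by_cases hinj : Set.InjOn f T
  · -- no two twins: transport from `f '' T`
    rcases h (f '' T) with hcol | ⟨S, hST, ⟨v, hv, hstar⟩, a, b, hab⟩
    · left
      obtain ⟨c⟩ := hcol
      refine ⟨SimpleGraph.Coloring.mk (fun z => c ⟨f z.1, z.1, z.2, rfl⟩) ?_⟩
      intro z w hzw
      exact c.valid (show G.Adj (f z.1) (f w.1) from hzw)
    · right
      refine ⟨{z | z ∈ T ∧ f z ∈ S}, fun z hz => hz.1, ?_, ?_⟩
      · obtain ⟨z, hz, hzv⟩ := hST hv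
        refine ⟨z, ⟨hz, by rw [hzv]; exact hv⟩, ?_⟩
        rintro w ⟨hw, hwS⟩ hne
        show G.Adj (f z) (f w)
        rw [hzv]
        refine hstar _ hwS ?_
        intro e
        exact hne (hinj hw hz (by rw [e, hzv]))
      · obtain ⟨za, hza, hfa⟩ := a.2.1
        obtain ⟨zb, hzb, hfb⟩ := b.2.1
        have haS : f za ∉ S := by rw [hfa]; exact a.2.2
        have hbS : f zb ∉ S := by rw [hfb]; exact b.2.2
        let φ : (G.comap f).induce (T \ {z | z ∈ T ∧ f z ∈ S}) →g G.induce (f '' T \ S) :=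
          { toFun := fun z => ⟨f z.1, ⟨z.1, z.2.1, rfl⟩, fun hS => z.2.2 ⟨z.2.1, hS⟩⟩
            map_rel' := fun {z w} hzw => hzw }
        refine ⟨⟨za, hza, fun hh => haS hh.2⟩, ⟨zb, hzb, fun hh => hbS hh.2⟩, ?_⟩
        intro hr
        have h1 := hr.map φ
        have e1 : φ ⟨za, hza, fun hh => haS hh.2⟩ = a := Subtype.ext hfa
        have e2 : φ ⟨zb, hzb, fun hh => hbS hh.2⟩ = b := Subtype.ext hfb
        rw [e1, e2] at h1
        exact hab h1
  · -- two twins `p`, `q`
    obtain ⟨p, hp, q, hq, hpq, hne⟩ : ∃ p ∈ T, ∃ q ∈ T, f p = f q ∧ p ≠ q := by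
      by_contra hcon
      push Not at hcon
      exact hinj fun p hp q hq e => hcon p hp q hq e
    by_cases hr : ∃ r ∈ T, r ≠ p ∧ r ≠ q ∧ ¬ G.Adj (f p) (f r)
    · right
      obtain ⟨r, hrT, hrp, hrq, hradj⟩ := hr
      refine ⟨{z | z ∈ T ∧ (z = p ∨ G.Adj (f p) (f z))}, fun z hz => hz.1,
        ⟨p, ⟨hp, Or.inl rfl⟩, ?_⟩, ?_⟩
      · rintro w ⟨-, hw | hw⟩ hwp
        · exact absurd hw hwp
        · exact hw
      · have hqS : ¬ (q ∈ T ∧ (q = p ∨ G.Adj (f p) (f q))) := by
          rintro ⟨-, h1 | h1⟩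
          · exact hne h1.symm
          · rw [hpq] at h1
            exact G.loopless.irrefl _ h1
        have hrS : ¬ (r ∈ T ∧ (r = p ∨ G.Adj (f p) (f r))) := by
          rintro ⟨-, h1 | h1⟩
          · exact hrp h1
          · exact hradj h1
        refine ⟨⟨q, hq, hqS⟩, ⟨r, hrT, hrS⟩, ?_⟩
        intro hreach
        rw [SimpleGraph.reachable_iff_reflTransGen] at hreach
        rcases Relation.ReflTransGen.cases_head hreach with h1 | ⟨c, hc, -⟩
        · exact hrq (congrArg Subtype.val h1).symm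
        · have h2 : G.Adj (f q) (f c.1) := hc
          rw [← hpq] at h2
          exact c.2.2 ⟨c.2.1, Or.inr h2⟩
    · left
      push Not at hr
      have key : ∀ z ∈ T, z ≠ p → z ≠ q → G.Adj (f p) (f z) := hr
      refine ⟨SimpleGraph.Coloring.mk (fun z => if z.1 = p ∨ z.1 = q then 0 else 1) ?_⟩
      intro z w hzw
      have hzw' : G.Adj (f z.1) (f w.1) := hzw
      by_cases hz : z.1 = p ∨ z.1 = q
      · by_cases hw : w.1 = p ∨ w.1 = q
        · exfalso
          have e1 : f z.1 = f p := by rcases hz with e | e <;> rw [e]; rw [hpq]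
          have e2 : f w.1 = f p := by rcases hw with e | e <;> rw [e]; rw [hpq]
          rw [e1, e2] at hzw'
          exact G.loopless.irrefl _ hzw'
        · rw [if_pos hz, if_neg hw]
          decide
      · by_cases hw : w.1 = p ∨ w.1 = q
        · rw [if_neg hz, if_pos hw]
          decide
        · exfalso
          have h1 := key z.1 z.2 (fun e => hz (Or.inl e)) (fun e => hz (Or.inr e))
          have h2 := key w.1 w.2 (fun e => hw (Or.inl e)) (fun e => hw (Or.inr e))
          exact h3 {f p, f z.1, f w.1} (SimpleGraph.is3Clique_triple_iff.2 ⟨h1, h2, hzw'⟩)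

end Pool.Agent.Lib.MP_4f8534_co.Finite
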